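import Pool.Agent.PDQ.St

/-!
PDQ, module Q3: masses in residue classes.
-/

set_option autoImplicit false

namespace Pool.Agent.PDQ

open Finset Filter Topology
open Pool.Agent.Collatz3 (cw)
open Pool.Agent.Collatz3.Mix (words)
open Pool.Agent.Collatz3.PD (rd en Fw U E P A Good badV Vg lam II Err2)

/-- a linear congruence with coefficient a power of two has exactly one solution modulo an odd number -/
theorem Q3_card {Q : ℕ} (hQ : Odd Q) (s : ℕ) (c : ℤ) :
    ((range Q).filter (fun x : ℕ => (Q : ℤ) ∣ 2 ^ s * (x : ℤ) - c)).card = 1 := by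
  have hQ0 : 0 < Q := hQ.pos
  have hQ1 : (0 : ℤ) < Q := by exact_mod_cast hQ0
  have hco : IsCoprime ((2 : ℤ) ^ s) (Q : ℤ) := by
    apply IsCoprime.pow_left
    have h1 : Nat.Coprime 2 Q := Nat.coprime_two_left.mpr hQ
    exact_mod_cast Nat.isCoprime_iff_coprime.mpr h1
  obtain ⟨a, b, hab⟩ := hco
  rw [card_eq_one]
  have hx0 := Int.emod_nonneg (a * c) hQ1.ne'
  have hx1 := Int.emod_lt_of_pos (a * c) hQ1
  have hx2 : (Q : ℤ) ∣ a * c - a * c % Q := Int.dvd_self_sub_emod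
  refine ⟨((a * c) % Q).toNat, ?_⟩
  ext x
  rw [mem_filter, mem_range, mem_singleton]
  constructor
  · rintro ⟨h1, h2⟩
    have h3 : (Q : ℤ) ∣ (x : ℤ) - a * c := by
      have e : (x : ℤ) - a * c = a * (2 ^ s * x - c) + Q * (b * x) := by
        linear_combination (-(x : ℤ)) * hab
      rw [e]
      exact dvd_add (h2.mul_left _) (dvd_mul_right _ _)
    have h4 : (Q : ℤ) ∣ (x : ℤ) - a * c % Q := by
      have e : (x : ℤ) - a * c % Q = ((x : ℤ) - a * c) + (a * c - a * c % Q) := by ring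
      rw [e]
      exact dvd_add h3 hx2
    have h5 : |(x : ℤ) - a * c % Q| < Q := by
      rw [abs_lt]
      constructor <;> omega
    have h6 := Int.eq_zero_of_abs_lt_dvd h4 h5
    omega
  · intro h
    have h1 : (x : ℤ) = a * c % Q := by
      rw [h, Int.toNat_of_nonneg hx0]
    refine ⟨by omega, ?_⟩
    rw [h1]
    have e : 2 ^ s * (a * c % Q) - c = -(2 ^ s * (a * c - a * c % Q)) - Q * (b * c) := by
      linear_combination c * hab
    rw [e]
    exact dvd_sub (hx2.mul_left _).neg_right (dvd_mul_right _ _)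

theorem Q3_per {Q : ℤ} {s : ℕ} {c x t : ℤ} :
    Q ∣ 2 ^ s * (x + Q * t) - c ↔ Q ∣ 2 ^ s * x - c := by
  have e : 2 ^ s * (x + Q * t) - c = (2 ^ s * x - c) + Q * (2 ^ s * t) := by ring
  rw [e, dvd_add_left (dvd_mul_right _ _)]

theorem Q3_per_Ec (V : Finset (List ℕ)) (k q : ℕ) (r : ℤ) : PerQ (3 ^ k * q) (Ec V k q r) := by
  intro x t
  unfold Ec
  apply sum_congr _ fun _ _ => rfl
  apply filter_congr
  intro v _
  push_cast
  rw [sub_sub, sub_sub, Q3_per]

theorem Q3_per_Fq (I k s q : ℕ) (r : ℤ) : PerQ (3 ^ k * q) (Fq I k s q r) := by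
  intro x t
  unfold Fq
  apply sum_congr _ fun _ _ => rfl
  apply filter_congr
  intro v _
  push_cast
  rw [sub_sub, sub_sub, Q3_per]

theorem Q3_AQ (V : Finset (List ℕ)) (k q : ℕ) (r : ℤ) (hq : Odd q) :
    AQ (3 ^ k * q) (Ec V k q r) = P V / q := by
  have hQ : Odd (3 ^ k * q) := (Odd.pow (by decide)).mul hq
  have hq0 : (q : ℝ) ≠ 0 := by exact_mod_cast hq.pos.ne'
  have h : ∑ x ∈ range (3 ^ k * q), Ec V k q r (x : ℤ) = 3 ^ k * P V := by
    unfold Ec P
    simp only [sum_filter]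
    rw [sum_comm, mul_sum]
    apply sum_congr rfl
    intro v _
    rw [← sum_filter, sum_const]
    have h1 := Q3_card hQ v.sum (cw v + 3 ^ k * r)
    have h2 : (range (3 ^ k * q)).filter (fun x : ℕ => (3 : ℤ) ^ k * q ∣
        2 ^ v.sum * (x : ℤ) - cw v - 3 ^ k * r) =
        (range (3 ^ k * q)).filter (fun x : ℕ => ((3 ^ k * q : ℕ) : ℤ) ∣
        2 ^ v.sum * (x : ℤ) - (cw v + 3 ^ k * r)) := by
      apply filter_congr
      intro x _
      push_cast
      rw [sub_sub]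
    rw [h2, h1, one_smul]
  unfold AQ
  rw [h]
  push_cast
  field_simp

theorem Q3_ge (I N k θ q : ℕ) (r y : ℤ) :
    3 ^ k * Fq I k θ q r y - Ec (badV I N k) k q r y ≤ Ec (Vg I N k θ) k q r y := by
  have h1 : 3 ^ k * Fq I k θ q r y =
      ∑ v ∈ ((words I k).filter (fun v => v.sum = θ)).filter (fun v => (3 : ℤ) ^ k * q ∣
        2 ^ v.sum * y - cw v - 3 ^ k * r), 3 ^ k * (1 / 2 : ℝ) ^ v.sum := by
    unfold Fq
    rw [mul_sum, filter_filter]
    have h2 : (words I k).filter (fun v => v.sum = θ ∧ (3 : ℤ) ^ k * q ∣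
        2 ^ θ * y - cw v - 3 ^ k * r) = (words I k).filter (fun v => v.sum = θ ∧
        (3 : ℤ) ^ k * q ∣ 2 ^ v.sum * y - cw v - 3 ^ k * r) := by
      apply filter_congr
      intro v _
      constructor
      · rintro ⟨h3, h4⟩
        exact ⟨h3, by rwa [h3]⟩
      · rintro ⟨h3, h4⟩
        exact ⟨h3, by rwa [h3] at h4⟩
    rw [h2]
    apply sum_congr rfl
    intro v hv
    rw [mem_filter] at hv
    rw [hv.2.1]
  have h3 : ((words I k).filter (fun v => v.sum = θ)).filter (fun v => (3 : ℤ) ^ k * q ∣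
        2 ^ v.sum * y - cw v - 3 ^ k * r) ⊆
      (Vg I N k θ).filter (fun v => (3 : ℤ) ^ k * q ∣ 2 ^ v.sum * y - cw v - 3 ^ k * r) ∪
      (badV I N k).filter (fun v => (3 : ℤ) ^ k * q ∣ 2 ^ v.sum * y - cw v - 3 ^ k * r) := by
    intro v hv
    rw [mem_filter, mem_filter] at hv
    rw [mem_union, mem_filter, mem_filter, Vg, badV, mem_filter, mem_filter]
    by_cases h4 : (cw v : ℝ) ≤ (5 / 4) ^ N * 2 ^ v.sum
    · exact Or.inl ⟨⟨hv.1.1, hv.1.2, h4⟩, hv.2⟩
    · exact Or.inr ⟨⟨hv.1.1, fun h => h4 h.2.2⟩, hv.2⟩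
  have h5 : 3 ^ k * Fq I k θ q r y ≤ Ec (Vg I N k θ) k q r y + Ec (badV I N k) k q r y := by
    rw [h1]
    unfold Ec
    refine (sum_le_sum_of_subset_of_nonneg h3 fun _ _ _ => by positivity).trans ?_
    rw [← sum_union_inter]
    exact le_add_of_nonneg_right (sum_nonneg fun _ _ => by positivity)
  linarith

theorem thm_Q3 : St_Q3 :=
  ⟨fun V k q r hq => ⟨Q3_per_Ec V k q r, Q3_AQ V k q r hq⟩, Q3_per_Fq, Q3_ge⟩

end Pool.Agent.PDQ
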