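import Pool.Agent.PDQ.Q1
import Pool.Agent.PDQ.Q3
import Pool.Agent.SLD.WRD
import Pool.Agent.SLD.TEL
import Pool.Agent.Collatz3.PDErr
import Pool.Agent.Collatz3.PDBase
import Pool.Agent.Collatz3.PDMixC

/-!
PDQ, module Q2: mixing in residue classes.
-/

set_option autoImplicit false

namespace Pool.Agent.PDQ

open Finset Filter Topology
open Pool.Agent.Collatz3 (cw)
open Pool.Agent.Collatz3.Mix (words mem_words)
open Pool.Agent.Collatz3.PD (Fw A II Z)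

/-- the masses of the words of `V` in a class -/
noncomputable def Q2_G (V : Finset (List ℕ)) (Q s : ℕ) (t y : ℤ) : ℝ :=
  ∑ _v ∈ V.filter (fun v => (Q : ℤ) ∣ 2 ^ s * y - ((cw v : ℤ) + t)), (1 / 2 : ℝ) ^ s

theorem Q2_G_per (V : Finset (List ℕ)) {Q' Q : ℕ} (h : Q' ∣ Q) (s : ℕ) (t : ℤ) :
    PerQ Q (Q2_G V Q' s t) := by
  intro x u
  unfold Q2_G
  apply sum_congr _ fun _ _ => rfl
  apply filter_congr
  intro v _
  obtain ⟨c, rfl⟩ := h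
  have e : (2 : ℤ) ^ s * (x + ((Q' * c : ℕ) : ℤ) * u) - ((cw v : ℤ) + t) =
      (2 ^ s * x - ((cw v : ℤ) + t)) + Q' * (2 ^ s * (c * u)) := by
    push_cast
    ring
  rw [e, dvd_add_left (dvd_mul_right _ _)]

theorem Q2_G_sum (V : Finset (List ℕ)) {Q : ℕ} (hQ : Odd Q) (s : ℕ) (t : ℤ) :
    ∑ y ∈ range Q, Q2_G V Q s t (y : ℤ) = #V * (1 / 2 : ℝ) ^ s := by
  unfold Q2_G
  simp only [sum_filter]
  rw [sum_comm]
  have h : ∀ v ∈ V, ∑ y ∈ range Q, (if (Q : ℤ) ∣ 2 ^ s * (y : ℤ) - ((cw v : ℤ) + t)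
      then (1 / 2 : ℝ) ^ s else 0) = (1 / 2 : ℝ) ^ s := by
    intro v _
    rw [← sum_filter, sum_const, Q3_card hQ s ((cw v : ℤ) + t), one_smul]
  rw [sum_congr rfl h, sum_const, nsmul_eq_mul]

theorem Q2_G_mono {V V' : Finset (List ℕ)} (h : V' ⊆ V) (Q s : ℕ) (t y : ℤ) :
    Q2_G V' Q s t y ≤ Q2_G V Q s t y :=
  sum_le_sum_of_subset_of_nonneg (filter_subset_filter _ h) fun _ _ _ => by positivity

theorem Q2_dif {V V' : Finset (List ℕ)} (h : V' ⊆ V) {Q : ℕ} (hQ : Odd Q) (s : ℕ) (t : ℤ) :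
    ∑ y ∈ range Q, |Q2_G V' Q s t (y : ℤ) - Q2_G V Q s t (y : ℤ)| =
      ((#V : ℝ) - #V') * (1 / 2 : ℝ) ^ s := by
  have h1 : ∀ y ∈ range Q, |Q2_G V' Q s t (y : ℤ) - Q2_G V Q s t (y : ℤ)| =
      Q2_G V Q s t (y : ℤ) - Q2_G V' Q s t (y : ℤ) := fun y _ => by
    rw [abs_sub_comm, abs_of_nonneg (sub_nonneg.2 (Q2_G_mono h Q s t y))]
  rw [sum_congr rfl h1, sum_sub_distrib, Q2_G_sum _ hQ, Q2_G_sum _ hQ]
  ring

theorem Q2_sub (I k s : ℕ) : (words I k).filter (fun v => v.sum = s) ⊆ SLD.W k s := by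
  intro v hv
  rw [mem_filter, mem_words] at hv
  rw [SLD.WRD_mem]
  exact ⟨hv.1.1, fun i hi => (hv.1.2 i hi).1, hv.2⟩

/-- the mass of the words with a letter above `I` -/
theorem Q2_mass (I k s : ℕ) : ((#(SLD.W k s) : ℝ) -
    #((words I k).filter (fun v => v.sum = s))) * (1 / 2 : ℝ) ^ s ≤ 1 - Z I ^ k := by
  obtain ⟨d, hd⟩ : ∃ d : ℕ → ℝ, ∀ s, d s = ((#(SLD.W k s) : ℝ) -
    #((words I k).filter (fun v => v.sum = s))) * (1 / 2 : ℝ) ^ s := ⟨_, fun _ => rfl⟩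
  rw [← hd]
  have h0 : ∀ s, 0 ≤ d s := fun s => by
    rw [hd]
    refine mul_nonneg (sub_nonneg.2 ?_) (by positivity)
    exact_mod_cast card_le_card (Q2_sub I k s)
  have h1 : d s ≤ ∑ s' ∈ range (I * k + s + 1), d s' :=
    single_le_sum (f := d) (fun s' _ => h0 s')
      (mem_range.2 (by omega : s < I * k + s + 1))
  have h2 : ∑ s' ∈ range (I * k + s + 1), d s' =
      ∑ s' ∈ range (I * k + s + 1), SLD.p k s' - Collatz3.PD.P (words I k) := by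
    have h3 : Collatz3.PD.P (words I k) = ∑ s' ∈ range (I * k + s + 1),
        (#((words I k).filter (fun v => v.sum = s')) : ℝ) * (1 / 2 : ℝ) ^ s' := by
      unfold Collatz3.PD.P
      rw [← sum_fiberwise_of_maps_to (s := words I k) (t := range (I * k + s + 1))
        (g := fun w => w.sum) (fun w hw => by
          rw [mem_words] at hw
          have := List.sum_le_card_nsmul w I fun i hi => (hw.2 i hi).2
          rw [hw.1] at this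
          rw [mem_range]
          have h2 : k • I = I * k := by rw [smul_eq_mul, mul_comm]
          omega)]
      apply sum_congr rfl
      intro s' _
      rw [← nsmul_eq_mul, ← sum_const]
      apply sum_congr rfl
      intro w hw
      rw [mem_filter] at hw
      rw [hw.2]
    rw [h3, ← sum_sub_distrib]
    apply sum_congr rfl
    intro s' _
    rw [hd, sub_mul, SLD.p, one_div, inv_pow, div_eq_mul_inv]
  have h3 := SLD.WRD_mass k (I * k + s + 1)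
  rw [Collatz3.PD.P_words] at h2
  linarith

theorem Q2_P_eq (Q k s : ℕ) (y β t : ℤ) (hβ : (Q : ℤ) ∣ 2 ^ s * β - t) :
    SLD.P Q k s (y - β) = Q2_G (SLD.W k s) Q s t y := by
  unfold SLD.P Q2_G
  rw [sum_const, nsmul_eq_mul, div_eq_mul_inv, one_div, inv_pow]
  congr 3
  apply filter_congr
  intro w _
  have e : (2 : ℤ) ^ s * (y - β) - (cw w : ℤ) = (2 ^ s * y - ((cw w : ℤ) + t)) - (2 ^ s * β - t) := by
    ring
  rw [e]
  exact dvd_sub_left hβ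

theorem Q2_P_eq0 (Q k s : ℕ) (y : ℤ) : SLD.P Q k s y = Q2_G (SLD.W k s) Q s 0 y := by
  have h := Q2_P_eq Q k s y 0 0 (by simp)
  rw [sub_zero] at h
  exact h

theorem Q2_P_nonneg (Q k s : ℕ) (y : ℤ) : 0 ≤ SLD.P Q k s y := by
  unfold SLD.P
  positivity

theorem Q2_P_per {Q' Q : ℕ} (h : Q' ∣ Q) (k s : ℕ) : PerQ Q (SLD.P Q' k s) := by
  intro x u
  rw [Q2_P_eq0, Q2_P_eq0]
  exact Q2_G_per _ h s 0 x u

theorem Q2_P_sum {Q : ℕ} (hQ : Odd Q) (k s : ℕ) :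
    ∑ x ∈ range Q, SLD.P Q k s (x : ℤ) = SLD.p k s := by
  simp only [Q2_P_eq0]
  rw [Q2_G_sum _ hQ, SLD.p, one_div, inv_pow, div_eq_mul_inv]

theorem Q2_key {Q' R : ℕ} (hQ : Odd (R * Q')) (k s : ℕ) :
    ∑ x ∈ range (R * Q'), |SLD.P (R * Q') k s (x : ℤ) -
      (Q' : ℝ) / ((R * Q' : ℕ) : ℝ) * SLD.P Q' k s (x : ℤ)| ≤ 2 * SLD.p k s := by
  have hQ' : Odd Q' := (Nat.odd_mul.1 hQ).2
  have hR : Odd R := (Nat.odd_mul.1 hQ).1
  have hQ0 : (0 : ℝ) < Q' := by exact_mod_cast hQ'.pos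
  have hR0 : (0 : ℝ) < R := by exact_mod_cast hR.pos
  have h1 : ∑ x ∈ range (R * Q'), SLD.P Q' k s (x : ℤ) = R * SLD.p k s := by
    have h := Q1_shift_sum_mul (Q2_P_per (dvd_refl Q') k s) 0 R
    simp only [zero_add] at h
    rw [h, Q2_P_sum hQ']
  have h2 : ∀ x ∈ range (R * Q'), |SLD.P (R * Q') k s (x : ℤ) -
      (Q' : ℝ) / ((R * Q' : ℕ) : ℝ) * SLD.P Q' k s (x : ℤ)| ≤ SLD.P (R * Q') k s (x : ℤ) +
      (Q' : ℝ) / ((R * Q' : ℕ) : ℝ) * SLD.P Q' k s (x : ℤ) := by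
    intro x _
    have h3 := Q2_P_nonneg (R * Q') k s x
    have h4 := Q2_P_nonneg Q' k s x
    have h5 : 0 ≤ (Q' : ℝ) / ((R * Q' : ℕ) : ℝ) * SLD.P Q' k s (x : ℤ) := by positivity
    rw [abs_le]
    constructor <;> linarith
  refine (sum_le_sum h2).trans ?_
  rw [sum_add_distrib, ← mul_sum, h1, Q2_P_sum hQ]
  have h3 : (Q' : ℝ) / ((R * Q' : ℕ) : ℝ) * (R * SLD.p k s) = SLD.p k s := by
    push_cast
    field_simp
  rw [h3]
  linarith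

/-- the oscillation for one sum -/
theorem Q2_osc (h1 : SLD.St_MIX) (h2 : SLD.St_TAL) : ∃ (δ C ρ : ℝ), 0 < δ ∧ 0 ≤ C ∧ 0 < ρ ∧
    ρ < 1 ∧ ∀ k a q₀ s : ℕ, 1 ≤ k → Odd q₀ → ¬ 3 ∣ q₀ → (3 : ℝ) ^ a * q₀ ≤ Real.exp (δ * k) →
      ∑ x ∈ range (3 ^ (k + a) * q₀), |SLD.P (3 ^ (k + a) * q₀) k s (x : ℤ) -
        ((3 ^ (k / 4) : ℕ) : ℝ) / ((3 ^ (k + a) * q₀ : ℕ) : ℝ) *
          SLD.P (3 ^ (k / 4)) k s (x : ℤ)| ≤ C / (k : ℝ) ^ 9 + 2 * ρ ^ k := by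
  obtain ⟨δ, hδ, C, hC⟩ := h1 9
  obtain ⟨⟨ρ, hρ0, hρ1, hρ⟩, -⟩ := h2
  refine ⟨δ, |C|, ρ, hδ, abs_nonneg _, hρ0, hρ1, fun k a q₀ s hk hq h3 hle => ?_⟩
  have hk0 : (0 : ℝ) < k := by exact_mod_cast hk
  have hρk : 0 < ρ ^ k := by positivity
  by_cases hs : s < 21 * k / 10 + 1
  · have h4 := hC k a q₀ hk hq h3 hle
    have h5 : ∑ x ∈ range (3 ^ (k + a) * q₀), |SLD.P (3 ^ (k + a) * q₀) k s (x : ℤ) -
        ((3 ^ (k / 4) : ℕ) : ℝ) / ((3 ^ (k + a) * q₀ : ℕ) : ℝ) *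
          SLD.P (3 ^ (k / 4)) k s (x : ℤ)| ≤
        SLD.Osc (3 ^ (k + a) * q₀) (3 ^ (k / 4)) k (21 * k / 10 + 1) := by
      unfold SLD.Osc
      exact single_le_sum (f := fun s => ∑ x ∈ range (3 ^ (k + a) * q₀),
        |SLD.P (3 ^ (k + a) * q₀) k s (x : ℤ) -
        ((3 ^ (k / 4) : ℕ) : ℝ) / ((3 ^ (k + a) * q₀ : ℕ) : ℝ) *
          SLD.P (3 ^ (k / 4)) k s (x : ℤ)|)
        (fun _ _ => sum_nonneg fun _ _ => abs_nonneg _) (mem_range.2 hs)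
    have h6 : C / (k : ℝ) ^ 9 ≤ |C| / (k : ℝ) ^ 9 :=
      div_le_div_of_nonneg_right (le_abs_self C) (by positivity)
    linarith
  · obtain ⟨R, hR⟩ : ∃ R : ℕ, 3 ^ (k + a) * q₀ = R * 3 ^ (k / 4) := by
      refine ⟨3 ^ (k + a - k / 4) * q₀, ?_⟩
      have h4 : 3 ^ (k + a) = 3 ^ (k + a - k / 4) * 3 ^ (k / 4) := by
        rw [← pow_add]
        congr 1
        omega
      rw [h4]
      ring
    have hodd : Odd (R * 3 ^ (k / 4)) := by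
      rw [← hR]
      exact (Odd.pow (by decide)).mul hq
    rw [hR]
    refine (Q2_key hodd k s).trans ?_
    have h4 := (hρ k).2.2 (s + 1)
    have h5 : SLD.p k s ≤ ∑ s ∈ Ico (21 * k / 10 + 1) (s + 1), SLD.p k s :=
      single_le_sum (f := fun s => SLD.p k s) (fun s _ => SLD.WRD_p_nonneg k s)
        (mem_Ico.2 ⟨by omega, by omega⟩)
    have h6 : 0 ≤ |C| / (k : ℝ) ^ 9 := by positivity
    linarith

/-! ### Averages -/

theorem Q2_AQ_mul {Q R : ℕ} (hQ : 1 ≤ Q) (hR : 1 ≤ R) {f : ℤ → ℝ} (hf : PerQ Q f) :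
    AQ (Q * R) f = AQ Q f := by
  have h := Q1_shift_sum_mul hf 0 R
  simp only [zero_add] at h
  have hQ0 : (0 : ℝ) < Q := by exact_mod_cast hQ
  have hR0 : (0 : ℝ) < R := by exact_mod_cast hR
  unfold AQ
  rw [mul_comm Q R, h]
  push_cast
  field_simp

theorem Q2_AQ_scale {Q : ℕ} (hQ : 1 ≤ Q) (u v : ℤ → ℝ) :
    AQ Q (fun y => |(Q : ℝ) * u y - Q * v y|) = ∑ y ∈ range Q, |u (y : ℤ) - v (y : ℤ)| := by
  have hQ0 : (0 : ℝ) < Q := by exact_mod_cast hQ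
  unfold AQ
  rw [sum_div]
  apply sum_congr rfl
  intro y _
  change |(Q : ℝ) * u y - Q * v y| / Q = |u (y : ℤ) - v (y : ℤ)|
  rw [← mul_sub, abs_mul, abs_of_pos hQ0]
  field_simp

theorem Q2_AQ_five (Q : ℕ) (f g₁ g₂ g₃ g₄ g₅ : ℤ → ℝ)
    (h : ∀ y, f y ≤ g₁ y + g₂ y + g₃ y + g₄ y + g₅ y) :
    AQ Q f ≤ AQ Q g₁ + AQ Q g₂ + AQ Q g₃ + AQ Q g₄ + AQ Q g₅ := by
  unfold AQ
  rw [← add_div, ← add_div, ← add_div, ← add_div, ← sum_add_distrib, ← sum_add_distrib,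
    ← sum_add_distrib, ← sum_add_distrib]
  exact div_le_div_of_nonneg_right (sum_le_sum fun y _ => h y) (Nat.cast_nonneg _)

theorem Q2_Fq_eq (I k s q : ℕ) (r y : ℤ) : Fq I k s q r y =
    Q2_G ((words I k).filter (fun v => v.sum = s)) (3 ^ k * q) s (3 ^ k * r) y := by
  unfold Fq Q2_G
  rw [filter_filter]
  apply sum_congr _ fun _ _ => rfl
  apply filter_congr
  intro v _
  push_cast
  rw [sub_sub]

theorem Q2_Fw_eq (I k s n : ℕ) (y : ℤ) : Fw I k s n y =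
    Q2_G ((words I k).filter (fun v => v.sum = s)) (3 ^ n) s 0 y := by
  unfold Fw Q2_G
  rw [filter_filter]
  apply sum_congr _ fun _ _ => rfl
  apply filter_congr
  intro v _
  push_cast
  rw [add_zero]

/-- the main inequality: `D` bounds the mass of the words with a large letter, `O` the oscillation -/
theorem Q2_main (I k s q m : ℕ) (r : ℤ) (O O' e : ℝ) (hq : Odd q) (hm : m ≤ k)
    (hO : ∑ x ∈ range (3 ^ k * q), |SLD.P (3 ^ k * q) k s (x : ℤ) -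
        ((3 ^ (k / 4) : ℕ) : ℝ) / ((3 ^ k * q : ℕ) : ℝ) * SLD.P (3 ^ (k / 4)) k s (x : ℤ)| ≤ O)
    (hO' : ∑ x ∈ range (3 ^ k), |SLD.P (3 ^ k) k s (x : ℤ) -
        ((3 ^ (k / 4) : ℕ) : ℝ) / ((3 ^ k : ℕ) : ℝ) * SLD.P (3 ^ (k / 4)) k s (x : ℤ)| ≤ O')
    (he : A k (fun x => |3 ^ k * Fw I k s k x - 3 ^ m * Fw I k s m x|) ≤ e) :
    AQ (3 ^ k * q) (fun y => |3 ^ k * q * Fq I k s q r y - 3 ^ m * Fw I k s m y|) ≤
      (1 - Z I ^ k) + O + O' + (1 - Z I ^ k) + e := by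
  have h3k : Odd (3 ^ k) := Odd.pow (by decide)
  have hQ : Odd (3 ^ k * q) := h3k.mul hq
  have hQ1 : 1 ≤ 3 ^ k * q := hQ.pos
  have h3k1 : 1 ≤ 3 ^ k := h3k.pos
  obtain ⟨β, hβ⟩ : ∃ β : ℤ, ((3 ^ k * q : ℕ) : ℤ) ∣ 2 ^ s * β - 3 ^ k * r := by
    have h := Q3_card hQ s (3 ^ k * r)
    obtain ⟨x, hx⟩ := card_eq_one.1 h
    have h1 : x ∈ ({x} : Finset ℕ) := mem_singleton_self x
    rw [← hx, mem_filter] at h1
    exact ⟨x, h1.2⟩
  have hβ3 : (3 : ℤ) ^ k ∣ β := by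
    apply Collatz3.PD.three_pow_dvd_of_mul (s := s)
    have h1 : (3 : ℤ) ^ k ∣ 2 ^ s * β - 3 ^ k * r := by
      refine dvd_trans ?_ hβ
      push_cast
      exact dvd_mul_right _ _
    have h2 := dvd_add h1 (dvd_mul_right ((3 : ℤ) ^ k) r)
    rwa [sub_add_cancel] at h2
  have hd4 : 3 ^ (k / 4) ∣ 3 ^ k := pow_dvd_pow 3 (Nat.div_le_self k 4)
  have hshift : ∀ y : ℤ, SLD.P (3 ^ (k / 4)) k s (y - β) = SLD.P (3 ^ (k / 4)) k s y := by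
    intro y
    obtain ⟨c, rfl⟩ := hβ3
    have h := Q2_P_per hd4 k s y (-c)
    have e1 : y + ((3 ^ k : ℕ) : ℤ) * -c = y - 3 ^ k * c := by
      push_cast
      ring
    rw [e1] at h
    exact h
  have hcast : ((3 ^ k * q : ℕ) : ℝ) = 3 ^ k * q := by push_cast; rfl
  have hcast3 : ((3 ^ k : ℕ) : ℝ) = 3 ^ k := by push_cast; rfl
  refine (Q2_AQ_five (3 ^ k * q) _
    (fun y => |((3 ^ k * q : ℕ) : ℝ) * Fq I k s q r y -
      ((3 ^ k * q : ℕ) : ℝ) * SLD.P (3 ^ k * q) k s (y - β)|)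
    (fun y => |((3 ^ k * q : ℕ) : ℝ) * SLD.P (3 ^ k * q) k s (y - β) -
      ((3 ^ k * q : ℕ) : ℝ) * (((3 ^ (k / 4) : ℕ) : ℝ) / ((3 ^ k * q : ℕ) : ℝ) *
        SLD.P (3 ^ (k / 4)) k s (y - β))|)
    (fun y => |((3 ^ k : ℕ) : ℝ) * SLD.P (3 ^ k) k s y -
      ((3 ^ k : ℕ) : ℝ) * (((3 ^ (k / 4) : ℕ) : ℝ) / ((3 ^ k : ℕ) : ℝ) *
        SLD.P (3 ^ (k / 4)) k s y)|)
    (fun y => |((3 ^ k : ℕ) : ℝ) * Fw I k s k y - ((3 ^ k : ℕ) : ℝ) * SLD.P (3 ^ k) k s y|)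
    (fun y => |3 ^ k * Fw I k s k y - 3 ^ m * Fw I k s m y|) ?_).trans ?_
  · intro y
    rw [hshift y]
    have hQ0 : ((3 ^ k * q : ℕ) : ℝ) ≠ 0 := by
      have : (0 : ℝ) < ((3 ^ k * q : ℕ) : ℝ) := by exact_mod_cast hQ1
      exact this.ne'
    have h30 : ((3 ^ k : ℕ) : ℝ) ≠ 0 := by
      have : (0 : ℝ) < ((3 ^ k : ℕ) : ℝ) := by exact_mod_cast h3k1
      exact this.ne'
    have e1 : ((3 ^ k * q : ℕ) : ℝ) * (((3 ^ (k / 4) : ℕ) : ℝ) / ((3 ^ k * q : ℕ) : ℝ) *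
        SLD.P (3 ^ (k / 4)) k s y) = ((3 ^ (k / 4) : ℕ) : ℝ) * SLD.P (3 ^ (k / 4)) k s y := by
      field_simp
    have e2 : ((3 ^ k : ℕ) : ℝ) * (((3 ^ (k / 4) : ℕ) : ℝ) / ((3 ^ k : ℕ) : ℝ) *
        SLD.P (3 ^ (k / 4)) k s y) = ((3 ^ (k / 4) : ℕ) : ℝ) * SLD.P (3 ^ (k / 4)) k s y := by
      field_simp
    rw [e1, e2, ← hcast, ← hcast3]
    generalize ((3 ^ k * q : ℕ) : ℝ) * Fq I k s q r y = a0
    generalize ((3 ^ k * q : ℕ) : ℝ) * SLD.P (3 ^ k * q) k s (y - β) = a1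
    generalize ((3 ^ (k / 4) : ℕ) : ℝ) * SLD.P (3 ^ (k / 4)) k s y = a2
    generalize ((3 ^ k : ℕ) : ℝ) * SLD.P (3 ^ k) k s y = a3
    generalize ((3 ^ k : ℕ) : ℝ) * Fw I k s k y = a4
    generalize 3 ^ m * Fw I k s m y = a5
    have t1 := abs_sub_le a0 a1 a5
    have t2 := abs_sub_le a1 a2 a5
    have t3 := abs_sub_le a2 a3 a5
    have t4 := abs_sub_le a3 a4 a5
    rw [abs_sub_comm a2 a3] at t3
    rw [abs_sub_comm a3 a4] at t4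
    linarith
  · have b1 : AQ (3 ^ k * q) (fun y => |((3 ^ k * q : ℕ) : ℝ) * Fq I k s q r y -
        ((3 ^ k * q : ℕ) : ℝ) * SLD.P (3 ^ k * q) k s (y - β)|) ≤ 1 - Z I ^ k := by
      rw [Q2_AQ_scale hQ1 (Fq I k s q r) (fun y => SLD.P (3 ^ k * q) k s (y - β))]
      simp only [Q2_Fq_eq, Q2_P_eq _ _ _ _ _ _ hβ]
      rw [Q2_dif (Q2_sub I k s) hQ]
      exact Q2_mass I k s
    have b2 : AQ (3 ^ k * q) (fun y => |((3 ^ k * q : ℕ) : ℝ) * SLD.P (3 ^ k * q) k s (y - β) -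
        ((3 ^ k * q : ℕ) : ℝ) * (((3 ^ (k / 4) : ℕ) : ℝ) / ((3 ^ k * q : ℕ) : ℝ) *
          SLD.P (3 ^ (k / 4)) k s (y - β))|) ≤ O := by
      rw [Q2_AQ_scale hQ1 (fun y => SLD.P (3 ^ k * q) k s (y - β))
        (fun y => ((3 ^ (k / 4) : ℕ) : ℝ) / ((3 ^ k * q : ℕ) : ℝ) *
          SLD.P (3 ^ (k / 4)) k s (y - β))]
      have hper : PerQ (3 ^ k * q) (fun x => |SLD.P (3 ^ k * q) k s x -
          ((3 ^ (k / 4) : ℕ) : ℝ) / ((3 ^ k * q : ℕ) : ℝ) * SLD.P (3 ^ (k / 4)) k s x|) := by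
        intro x t
        have g1 := Q2_P_per (dvd_refl (3 ^ k * q)) k s x t
        have g2 := Q2_P_per (hd4.trans (dvd_mul_right (3 ^ k) q)) k s x t
        simp only [g1, g2]
      have h := Q1_shift_sum hper (-β)
      have e1 : ∀ j : ℕ, (-β + (j : ℤ)) = (j : ℤ) - β := fun j => by ring
      simp only [e1] at h
      rw [h]
      exact hO
    have b3 : AQ (3 ^ k * q) (fun y => |((3 ^ k : ℕ) : ℝ) * SLD.P (3 ^ k) k s y -
        ((3 ^ k : ℕ) : ℝ) * (((3 ^ (k / 4) : ℕ) : ℝ) / ((3 ^ k : ℕ) : ℝ) *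
          SLD.P (3 ^ (k / 4)) k s y)|) ≤ O' := by
      rw [Q2_AQ_mul h3k1 hq.pos, Q2_AQ_scale h3k1 (fun y => SLD.P (3 ^ k) k s y)
        (fun y => ((3 ^ (k / 4) : ℕ) : ℝ) / ((3 ^ k : ℕ) : ℝ) * SLD.P (3 ^ (k / 4)) k s y)]
      · exact hO'
      · intro x t
        have g1 := Q2_P_per (dvd_refl (3 ^ k)) k s x t
        have g2 := Q2_P_per hd4 k s x t
        simp only [g1, g2]
    have b4 : AQ (3 ^ k * q) (fun y => |((3 ^ k : ℕ) : ℝ) * Fw I k s k y -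
        ((3 ^ k : ℕ) : ℝ) * SLD.P (3 ^ k) k s y|) ≤ 1 - Z I ^ k := by
      rw [Q2_AQ_mul h3k1 hq.pos, Q2_AQ_scale h3k1 (fun y => Fw I k s k y)
        (fun y => SLD.P (3 ^ k) k s y)]
      · simp only [Q2_Fw_eq, Q2_P_eq0]
        rw [Q2_dif (Q2_sub I k s) h3k]
        exact Q2_mass I k s
      · intro x t
        have g1 := Q2_P_per (dvd_refl (3 ^ k)) k s x t
        have g2 : Fw I k s k (x + ((3 ^ k : ℕ) : ℤ) * t) = Fw I k s k x := by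
          rw [Q2_Fw_eq, Q2_Fw_eq]
          exact Q2_G_per _ (dvd_refl _) s 0 x t
        simp only [g1, g2]
    have b5 : AQ (3 ^ k * q) (fun y => |3 ^ k * Fw I k s k y - 3 ^ m * Fw I k s m y|) ≤ e := by
      rw [Q2_AQ_mul h3k1 hq.pos]
      · refine le_trans (le_of_eq ?_) he
        unfold AQ A Collatz3.PD.S
        rw [hcast3]
      · intro x t
        have g1 : Fw I k s k (x + ((3 ^ k : ℕ) : ℤ) * t) = Fw I k s k x := by
          rw [Q2_Fw_eq, Q2_Fw_eq]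
          exact Q2_G_per _ (dvd_refl _) s 0 x t
        have g2 : Fw I k s m (x + ((3 ^ k : ℕ) : ℤ) * t) = Fw I k s m x := by
          rw [Q2_Fw_eq, Q2_Fw_eq]
          exact Q2_G_per _ (pow_dvd_pow 3 hm) s 0 x t
        simp only [g1, g2]
    linarith

theorem thm_Q2 (h1 : SLD.St_MIX) (h2 : SLD.St_TAL) : St_Q2 := by
  obtain ⟨δ, C, ρ, hδ, hC, hρ0, hρ1, hosc⟩ := Q2_osc h1 h2
  refine ⟨δ / 40, by positivity, ?_⟩
  have hmix := Collatz3.PD.mix_small_s Collatz3.PD.mixRate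
  have hrho := Collatz3.PD.eventually_pow_div ρ hρ0 hρ1 20 8 (by norm_num) (1 / 8) (by norm_num)
  obtain ⟨N₁, hN₁⟩ := eventually_atTop.1 (hmix.and hrho)
  obtain ⟨N₂, hN₂⟩ := exists_nat_ge (4 * C * 40 ^ 9)
  refine ⟨max (max N₁ N₂) 40, fun N hN k s q r hk hk4 hq hqe => ?_⟩
  have hNN₁ : N₁ ≤ N := by omega
  have hNN₂ : N₂ ≤ N := by omega
  have hN40 : 40 ≤ N := by omega
  obtain ⟨hm1, hr1⟩ := hN₁ N hNN₁
  have hNpos : (0 : ℝ) < N := by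
    have : 0 < N := by omega
    exact_mod_cast this
  have hk2 : 2 ≤ k := by omega
  have hkN : N ≤ 40 * k := by omega
  have hkNr : (N : ℝ) ≤ 40 * k := by exact_mod_cast hkN
  have hk0 : (0 : ℝ) < k := by
    have : 0 < k := by omega
    exact_mod_cast this
  obtain ⟨a, q₀, hq3, hqa⟩ := Nat.exists_eq_pow_mul_and_not_dvd (n := q) hq.pos.ne' 3 (by norm_num)
  have hq₀ : Odd q₀ := by
    rw [hqa] at hq
    exact (Nat.odd_mul.1 hq).2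
  have hO := hosc k a q₀ s (by omega) hq₀ hq3 (by
    have h3 : ((3 : ℝ) ^ a * q₀) = q := by
      rw [hqa]
      push_cast
      rfl
    rw [h3]
    refine hqe.trans (Real.exp_le_exp.2 ?_)
    rw [div_mul_eq_mul_div, div_le_iff₀ (by norm_num)]
    nlinarith)
  have hO' := hosc k 0 1 s (by omega) odd_one (by norm_num) (by
    rw [pow_zero, one_mul, Nat.cast_one]
    exact Real.one_le_exp (by positivity))
  have e1 : 3 ^ (k + a) * q₀ = 3 ^ k * q := by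
    rw [hqa, pow_add, mul_assoc]
  rw [e1] at hO
  rw [add_zero, mul_one] at hO'
  refine (Q2_main (II N) k s q (N / 20) r _ _ _ hq hk hO hO' (hm1 k s hk hk4)).trans ?_
  have f1 : 1 - Z (II N) ^ k ≤ 1 / 4 / (N : ℝ) ^ 8 := by
    have g1 := Collatz3.PD.one_sub_Z_pow (II N) k
    have g2 := Collatz3.PD.half_pow_II (N := N) (by omega)
    have g3 : (k : ℝ) ≤ N := by
      have : k ≤ N := by omega
      exact_mod_cast this
    have g4 : (k : ℝ) * (1 / 2 : ℝ) ^ (II N) ≤ N * (2 / N) ^ 12 := by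
      apply mul_le_mul g3 g2 (by positivity) hNpos.le
    refine g1.trans (g4.trans ?_)
    rw [div_pow, le_div_iff₀ (by positivity)]
    have g5 : (N : ℝ) * (2 ^ 12 / (N : ℝ) ^ 12) * (N : ℝ) ^ 8 = 2 ^ 12 / (N : ℝ) ^ 3 := by
      field_simp
    rw [g5, div_le_iff₀ (by positivity)]
    have g6 : (40 : ℝ) ≤ N := by exact_mod_cast hN40
    have g7 : (40 : ℝ) ^ 3 ≤ (N : ℝ) ^ 3 := pow_le_pow_left₀ (by norm_num) g6 3
    norm_num at g7 ⊢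
    linarith
  have f2 : C / (k : ℝ) ^ 9 ≤ 1 / 4 / (N : ℝ) ^ 8 := by
    rw [div_le_div_iff₀ (by positivity) (by positivity)]
    have g1 : 4 * C * 40 ^ 9 ≤ (N : ℝ) := hN₂.trans (by exact_mod_cast hNN₂)
    have g2 : (N : ℝ) ^ 9 ≤ (40 * k) ^ 9 := pow_le_pow_left₀ hNpos.le hkNr 9
    rw [mul_pow] at g2
    have g3 : 0 < (N : ℝ) ^ 8 := by positivity
    have g4 : (4 * C * 40 ^ 9) * (N : ℝ) ^ 8 ≤ N * (N : ℝ) ^ 8 :=
      mul_le_mul_of_nonneg_right g1 g3.le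
    have g5 : (N : ℝ) * (N : ℝ) ^ 8 = (N : ℝ) ^ 9 := by ring
    rw [g5] at g4
    have g6 := g4.trans g2
    have g7 : (0 : ℝ) < 40 ^ 9 := by norm_num
    have g8 : 40 ^ 9 * (4 * C * (N : ℝ) ^ 8) ≤ 40 ^ 9 * (k : ℝ) ^ 9 := by
      calc 40 ^ 9 * (4 * C * (N : ℝ) ^ 8) = 4 * C * 40 ^ 9 * (N : ℝ) ^ 8 := by ring
        _ ≤ _ := g6
    have g9 := le_of_mul_le_mul_left g8 g7
    linarith
  have f3 : 2 * ρ ^ k ≤ 1 / 4 / (N : ℝ) ^ 8 := by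
    have g1 := hr1 k hk
    rw [le_div_iff₀ (by positivity)]
    linarith
  have f4 : 3 / (N : ℝ) ^ 8 = 12 * (1 / 4 / (N : ℝ) ^ 8) := by ring
  have f5 : 1 / (N : ℝ) ^ 8 = 4 * (1 / 4 / (N : ℝ) ^ 8) := by ring
  have f6 : 0 < 1 / 4 / (N : ℝ) ^ 8 := by positivity
  rw [f4, f5]
  linarith

end Pool.Agent.PDQ
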