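import Pool.Agent.PDQ.St
import Pool.Agent.Collatz3.PDCount

/-!
PDQ, module Q4: the final count at one scale, in a residue class.  Hypotheses: `St_Q1`, `St_Q3`.
-/

set_option autoImplicit false
set_option linter.unusedVariables false

namespace Pool.Agent.PDQ

open Finset
open Pool.Agent.Collatz3 (cw)
open Pool.Agent.Collatz3.Mix (words mem_words cw_append')
open Pool.Agent.Collatz3.PD

theorem Q4_pow {N k q s : ℕ} (hk : 4 * k ≤ N) (hq : (q : ℝ) ≤ 2 ^ (N / 200))
    (hs : 199 * N ≤ 100 * s) : (3 : ℝ) ^ N * ((3 ^ k * q : ℕ) : ℝ) ≤ 2 ^ s := by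
  have h0 : (3 : ℝ) ^ (N + k) * 2 ^ (N / 200) ≤ 2 ^ s := by
    have h : ((3 : ℝ) ^ (N + k) * 2 ^ (N / 200)) ^ 400 ≤ (2 ^ s) ^ 400 := by
      rw [mul_pow, ← pow_mul, ← pow_mul, ← pow_mul]
      calc (3 : ℝ) ^ ((N + k) * 400) * 2 ^ (N / 200 * 400) ≤ 3 ^ (500 * N) * 2 ^ (2 * N) := by
            apply mul_le_mul (pow_le_pow_right₀ (by norm_num) (by omega))
              (pow_le_pow_right₀ (by norm_num) (by omega)) (by positivity) (by positivity)
        _ = (3 ^ 125 * 3 ^ 125 * 2) ^ (2 * N) := by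
            have e : 500 * N = 125 * (2 * N) + 125 * (2 * N) := by ring
            rw [mul_pow, mul_pow, ← pow_mul, ← pow_add, ← e]
        _ ≤ (2 ^ 199 * 2 ^ 199) ^ (2 * N) := pow_le_pow_left₀ (by positivity) (by norm_num) _
        _ = 2 ^ (796 * N) := by
            have e : 796 * N = 199 * (2 * N) + 199 * (2 * N) := by ring
            rw [mul_pow, ← pow_mul, ← pow_add, ← e]
        _ ≤ 2 ^ (s * 400) := pow_le_pow_right₀ (by norm_num) (by omega)
    exact le_of_pow_le_pow_left₀ (by norm_num) (by positivity) h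
  refine le_trans ?_ h0
  push_cast
  rw [← mul_assoc, ← pow_add]
  exact mul_le_mul_of_nonneg_left hq (by positivity)

/-- The pairs of words at one level, with end point in the class. -/
noncomputable def Q4_pairs (I N k Y q : ℕ) (r : ℤ) (G : Finset (List ℕ)) (b : ℤ) :
    Finset (Σ _ : List ℕ, List ℕ) :=
  (G.filter (fun w => rd w b)).sigma fun w =>
    (Vg I N k (lam Y (N + k) - w.sum)).filter fun v =>
      (3 : ℤ) ^ k * q ∣ 2 ^ v.sum * en w b - cw v - 3 ^ k * r

theorem Q4_level {I N k Y q : ℕ} {r : ℤ} {K : ℝ} {G : Finset (List ℕ)} (hG : Good N K G)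
    (hY : 1 ≤ Y) (hs : 201 * N ≤ 100 * lam Y (N + k)) (b : ℤ) :
    ∑ w ∈ G.filter (fun w => rd w b), 3 ^ w.length * (1 / 2 : ℝ) ^ w.sum *
      Ec (Vg I N k (lam Y (N + k) - w.sum)) k q r (en w b) ≤
      (Q4_pairs I N k Y q r G b).card * (2 / Y) := by
  rw [Q4_pairs, card_sigma]
  push_cast
  rw [sum_mul]
  apply sum_le_sum
  intro w hw
  rw [mem_filter] at hw
  unfold Ec
  rw [mul_sum, ← nsmul_eq_mul]
  apply sum_le_card_nsmul
  intro v hv
  rw [mem_filter, Vg, mem_filter] at hv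
  have h1 := hG.hi w hw.1
  have h2 : w.sum + v.sum = lam Y (N + k) := by
    have := hv.1.2.1
    omega
  rw [hG.len w hw.1]
  calc 3 ^ N * (1 / 2 : ℝ) ^ w.sum * (3 ^ k * (1 / 2 : ℝ) ^ v.sum) =
      3 ^ (N + k) * (1 / 2 : ℝ) ^ (w.sum + v.sum) := by
        rw [pow_add, pow_add]
        ring
    _ ≤ 2 / Y := by
        rw [h2]
        exact wt_le hY _

theorem Q4_read {k q : ℕ} {r y : ℤ} {v : List ℕ} (hv : v.length = k)
    (h : (3 : ℤ) ^ k * q ∣ 2 ^ v.sum * y - cw v - 3 ^ k * r) :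
    rd v y ∧ (q : ℤ) ∣ en v y - r := by
  have h1 : rd v y := by
    unfold rd
    rw [hv]
    have h2 : (3 : ℤ) ^ k ∣ 2 ^ v.sum * y - cw v - 3 ^ k * r := (dvd_mul_right _ _).trans h
    have h3 := dvd_add h2 (dvd_mul_right ((3 : ℤ) ^ k) r)
    rwa [sub_add_cancel] at h3
  refine ⟨h1, ?_⟩
  have h2 := en_spec h1
  rw [hv] at h2
  have h3 : (2 : ℤ) ^ v.sum * y - cw v - 3 ^ k * r = 3 ^ k * (en v y - r) := by
    rw [mul_sub]
    linarith
  rw [h3] at h
  exact (mul_dvd_mul_iff_left (by positivity)).1 h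

theorem thm_Q4 (hQ1 : St_Q1) (hQ3 : St_Q3) : St_Q4 := by
  intro N Y q r b K G hE hK hKN hG hY h1 h2 hb hodd hq hmix
  obtain ⟨hQ3a, hQ3b, hQ3c⟩ := hQ3
  have hbig := hE.big
  have hNpos : (0 : ℝ) < N := by exact_mod_cast (by omega : 0 < N)
  have hYpos : (0 : ℝ) < Y := by exact_mod_cast hY
  have hq1 : 1 ≤ q := hodd.pos
  have hqpos : (0 : ℝ) < q := by exact_mod_cast hq1
  obtain ⟨I, hI⟩ : ∃ I, I = II N := ⟨_, rfl⟩
  obtain ⟨m, hm⟩ : ∃ m, m = N / 20 := ⟨_, rfl⟩
  obtain ⟨n, hn⟩ : ∃ n, n = N / 4 := ⟨_, rfl⟩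
  have hmn : m ≤ n := by omega
  have hlamk : ∀ k, m < k → 201 * N ≤ 100 * lam Y (N + k) := by
    intro k hk
    have h3 := lam_mono Y (show N + N / 20 ≤ N + k by omega)
    omega
  -- the error terms
  have hc : 0 ≤ (N : ℝ) * (K + 1 + 1) := by positivity
  obtain ⟨ε, hε⟩ : ∃ ε : ℝ, ε = N * (K + 1 + 1) * (1 / (N : ℝ) ^ 8) := ⟨_, rfl⟩
  have hcnt : ∀ k, k ≤ n → ∀ (g : ℕ → ℤ → ℝ) (δ : ℝ), (∀ s, PerQ (3 ^ k * q) (g s)) →
      (∀ s x, 0 ≤ g s x) → (∀ s, AQ (3 ^ k * q) (g s) ≤ δ) → 0 ≤ δ →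
      ∑ w ∈ G.filter (fun w => rd w b), 3 ^ w.length * (1 / 2 : ℝ) ^ w.sum * g w.sum (en w b) ≤
        N * (K + 1 + 1) * δ := by
    intro k hk g δ hg hg0 hδ hδ0
    have h := hQ1 N ((199 * N + 99) / 100) (201 * N / 100) (3 ^ k * q) (K + 1) δ b G g
      (by linarith) (Nat.mul_pos (by positivity) hq1) hG.len hG.pos
      (fun w hw => by have := hG.lo w hw; omega)
      (fun w hw => by have := hG.hi w hw; omega) hG.cw hg hg0 (fun s _ _ => hδ s)
      (Q4_pow (by omega) hq (by omega))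
    refine h.trans ?_
    rw [mul_assoc]
    apply mul_le_mul_of_nonneg_right
    · exact_mod_cast (by omega : 201 * N / 100 + 1 - (199 * N + 99) / 100 ≤ N)
    · positivity
  have hbadm : E G (E (badV I N m) (fun _ => 1)) b ≤ ε := by
    have hper : Per m (E (badV I N m) (fun _ => 1)) :=
      per_E (l := 0) (fun v hv => words_length (mem_filter.1 hv).1) per_one
    have h3 := hG.count (by linarith) (by omega) (by omega : 4 * m ≤ N) hper
      (E_nonneg _ fun _ => zero_le_one) b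
    have h4 : A m (E (badV I N m) (fun _ => 1)) ≤ 1 / (N : ℝ) ^ 8 := by
      have h5 := A_E (l := 0) (G := badV I N m) (fun v hv => words_length (mem_filter.1 hv).1)
        per_one
      rw [Nat.add_zero, A_one, mul_one] at h5
      rw [h5]
      exact hE.bad I m (by omega) (by omega)
    rw [hε]
    exact h3.trans (mul_le_mul_of_nonneg_left h4 hc)
  have hbadk : ∀ k, m ≤ k → k ≤ n →
      ∑ w ∈ G.filter (fun w => rd w b), 3 ^ w.length * (1 / 2 : ℝ) ^ w.sum *
        (q * Ec (badV I N k) k q r (en w b)) ≤ ε := by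
    intro k hk1 hk2
    have hP : P (badV I N k) ≤ 1 / (N : ℝ) ^ 8 := hE.bad I k (by omega) (by omega)
    obtain ⟨e1, e2⟩ := hQ3a (badV I N k) k q r hodd
    have h3 := hcnt k hk2 (fun _ y => q * Ec (badV I N k) k q r y) (1 / (N : ℝ) ^ 8)
      (fun s x t => by
        show q * Ec (badV I N k) k q r (x + _) = _
        rw [e1 x t])
      (fun s x => mul_nonneg hqpos.le (sum_nonneg fun _ _ => by positivity))
      (fun s => by
        have h4 : AQ (3 ^ k * q) (fun y => q * Ec (badV I N k) k q r y) =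
            q * AQ (3 ^ k * q) (Ec (badV I N k) k q r) := by
          unfold AQ
          rw [← mul_sum, mul_div_assoc]
        rw [h4, e2, mul_div_cancel₀ _ hqpos.ne']
        exact hP)
      (by positivity)
    rw [hε]
    exact h3
  have hmixk : ∀ k, m ≤ k → k ≤ n →
      ∑ w ∈ G.filter (fun w => rd w b), 3 ^ w.length * (1 / 2 : ℝ) ^ w.sum *
        |3 ^ k * q * Fq I k (lam Y (N + k) - w.sum) q r (en w b) -
          3 ^ m * Fw I k (lam Y (N + k) - w.sum) m (en w b)| ≤ 3 * ε := by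
    intro k hk1 hk2
    have h3 := hcnt k hk2 (fun s y => |3 ^ k * q * Fq I k (lam Y (N + k) - s) q r y -
          3 ^ m * Fw I k (lam Y (N + k) - s) m y|) (3 / (N : ℝ) ^ 8)
      (fun s x t => by
        have h4 := hQ3b I k (lam Y (N + k) - s) q r x t
        obtain ⟨j, rfl⟩ := Nat.exists_eq_add_of_le hk1
        have h5 := per_Fw I (m + j) (lam Y (N + (m + j)) - s) m (3 ^ m) x (3 ^ j * q * t)
        have h6 : x + ((3 ^ (m + j) * q : ℕ) : ℤ) * t = x + 3 ^ m * (3 ^ j * q * t) := by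
          push_cast
          ring
        simp only at h5 ⊢
        rw [h4, h6, h5])
      (fun _ _ => abs_nonneg _)
      (fun s => by
        have h4 := hmix k (lam Y (N + k) - s) (by omega) (by omega)
        rw [← hI, ← hm] at h4
        exact h4)
      (by positivity)
    refine h3.trans (le_of_eq ?_)
    rw [hε]
    ring
  -- the lower bound for the sum of the weights
  have hpt : ∀ w ∈ G.filter (fun w => rd w b),
      1 / 4 * (U I m (en w b) - E (badV I N m) (fun _ => 1) (en w b)) -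
        ∑ k ∈ Ioc m n, (|3 ^ k * q * Fq I k (lam Y (N + k) - w.sum) q r (en w b) -
          3 ^ m * Fw I k (lam Y (N + k) - w.sum) m (en w b)| +
          q * Ec (badV I N k) k q r (en w b)) ≤
      ∑ k ∈ Ioc m n, q * Ec (Vg I N k (lam Y (N + k) - w.sum)) k q r (en w b) := by
    intro w hw
    rw [mem_filter] at hw
    have h3 := coarse_ge hE hY (hG.lo w hw.1) (hG.hi w hw.1) h1 h2 (en w b)
    rw [← hI, ← hm, ← hn] at h3
    rw [sub_le_iff_le_add, ← sum_add_distrib]
    refine h3.trans (sum_le_sum fun k hk => ?_)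
    have h4 := mul_le_mul_of_nonneg_left (hQ3c I N k (lam Y (N + k) - w.sum) q r (en w b)) hqpos.le
    have h5 := neg_abs_le (3 ^ k * q * Fq I k (lam Y (N + k) - w.sum) q r (en w b) -
          3 ^ m * Fw I k (lam Y (N + k) - w.sum) m (en w b))
    have h6 : (q : ℝ) * (3 ^ k * Fq I k (lam Y (N + k) - w.sum) q r (en w b) -
        Ec (badV I N k) k q r (en w b)) =
        3 ^ k * q * Fq I k (lam Y (N + k) - w.sum) q r (en w b) -
          q * Ec (badV I N k) k q r (en w b) := by ring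
    rw [h6] at h4
    linarith
  have htot : 1 / 16 ≤ q * ∑ k ∈ Ioc m n, ∑ w ∈ G.filter (fun w => rd w b),
      3 ^ w.length * (1 / 2 : ℝ) ^ w.sum *
        Ec (Vg I N k (lam Y (N + k) - w.sum)) k q r (en w b) := by
    have h3 : ∑ w ∈ G.filter (fun w => rd w b), 3 ^ w.length * (1 / 2 : ℝ) ^ w.sum *
        (1 / 4 * (U I m (en w b) - E (badV I N m) (fun _ => 1) (en w b)) -
        ∑ k ∈ Ioc m n, (|3 ^ k * q * Fq I k (lam Y (N + k) - w.sum) q r (en w b) -
          3 ^ m * Fw I k (lam Y (N + k) - w.sum) m (en w b)| +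
          q * Ec (badV I N k) k q r (en w b))) ≤
        q * ∑ k ∈ Ioc m n, ∑ w ∈ G.filter (fun w => rd w b),
      3 ^ w.length * (1 / 2 : ℝ) ^ w.sum *
        Ec (Vg I N k (lam Y (N + k) - w.sum)) k q r (en w b) := by
      rw [sum_comm, mul_sum]
      apply sum_le_sum
      intro w hw
      rw [← mul_sum]
      refine (mul_le_mul_of_nonneg_left (hpt w hw) (by positivity)).trans (le_of_eq ?_)
      rw [← mul_sum]
      ring
    refine le_trans ?_ h3
    have h4 : ∑ w ∈ G.filter (fun w => rd w b), 3 ^ w.length * (1 / 2 : ℝ) ^ w.sum *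
        (1 / 4 * (U I m (en w b) - E (badV I N m) (fun _ => 1) (en w b)) -
        ∑ k ∈ Ioc m n, (|3 ^ k * q * Fq I k (lam Y (N + k) - w.sum) q r (en w b) -
          3 ^ m * Fw I k (lam Y (N + k) - w.sum) m (en w b)| +
          q * Ec (badV I N k) k q r (en w b))) =
        1 / 4 * (E G (U I m) b - E G (E (badV I N m) (fun _ => 1)) b) -
        ∑ k ∈ Ioc m n, (∑ w ∈ G.filter (fun w => rd w b), 3 ^ w.length * (1 / 2 : ℝ) ^ w.sum *
          |3 ^ k * q * Fq I k (lam Y (N + k) - w.sum) q r (en w b) -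
          3 ^ m * Fw I k (lam Y (N + k) - w.sum) m (en w b)| +
          ∑ w ∈ G.filter (fun w => rd w b), 3 ^ w.length * (1 / 2 : ℝ) ^ w.sum *
          (q * Ec (badV I N k) k q r (en w b))) := by
      unfold E
      simp only [mul_sub, mul_add, sum_sub_distrib, sum_add_distrib, mul_sum]
      congr 1
      · congr 1 <;>
        · apply sum_congr rfl
          intro w _
          ring_nf
      · rw [sum_comm]
        congr 1
        rw [sum_comm]
    rw [h4]
    have h6 : ∑ k ∈ Ioc m n, (∑ w ∈ G.filter (fun w => rd w b),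
          3 ^ w.length * (1 / 2 : ℝ) ^ w.sum *
          |3 ^ k * q * Fq I k (lam Y (N + k) - w.sum) q r (en w b) -
          3 ^ m * Fw I k (lam Y (N + k) - w.sum) m (en w b)| +
          ∑ w ∈ G.filter (fun w => rd w b), 3 ^ w.length * (1 / 2 : ℝ) ^ w.sum *
          (q * Ec (badV I N k) k q r (en w b))) ≤ ((Ioc m n).card : ℝ) * (3 * ε + ε) := by
      rw [← nsmul_eq_mul]
      apply sum_le_card_nsmul
      intro k hk
      rw [mem_Ioc] at hk
      exact add_le_add (hmixk k hk.1.le hk.2) (hbadk k hk.1.le hk.2)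
    rw [Nat.card_Ioc] at h6
    have h7 : ((n - m : ℕ) : ℝ) ≤ N / 4 := by
      have : 4 * (n - m) ≤ N := by omega
      have h8 : (4 : ℝ) * ((n - m : ℕ) : ℝ) ≤ N := by exact_mod_cast this
      linarith
    have hε0 : 0 ≤ ε := by
      rw [hε]
      positivity
    have hεb : N * ε ≤ 1 / 1000 := by
      have h8 : K + 2 ≤ 2 * (N : ℝ) ^ 4 := by
        have hN' : (1000 : ℝ) ≤ N := by exact_mod_cast hbig
        have : (2 : ℝ) ≤ N ^ 4 := by
          calc (2 : ℝ) ≤ N := by linarith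
            _ ≤ N ^ 4 := le_self_pow₀ (by linarith) (by norm_num)
        linarith
      have h9 : (1000 : ℝ) ≤ N := by exact_mod_cast hbig
      calc N * ε = (K + 2) * (1 / (N : ℝ) ^ 6) := by
            rw [hε]
            field_simp
            ring
        _ ≤ (2 * (N : ℝ) ^ 4) * (1 / (N : ℝ) ^ 6) :=
            mul_le_mul_of_nonneg_right h8 (by positivity)
        _ = 2 / (N : ℝ) ^ 2 := by field_simp
        _ ≤ 1 / 1000 := by
            rw [div_le_div_iff₀ (by positivity) (by norm_num)]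
            nlinarith
    have hε1 : ε ≤ 1 / 1000 := by
      refine le_trans ?_ hεb
      have h9 : (1 : ℝ) ≤ N := by exact_mod_cast (by omega : 1 ≤ N)
      nlinarith
    rw [← hI, ← hm] at hb
    have h10 : ((n - m : ℕ) : ℝ) * (3 * ε + ε) ≤ 1 / 1000 := by
      calc ((n - m : ℕ) : ℝ) * (3 * ε + ε) ≤ (N / 4) * (3 * ε + ε) :=
            mul_le_mul_of_nonneg_right h7 (by linarith)
        _ = N * ε := by ring
        _ ≤ 1 / 1000 := hεb
    linarith
  -- the number of pairs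
  have hcount : 1 / 16 ≤ q * ((∑ k ∈ Ioc m n, ((Q4_pairs I N k Y q r G b).card : ℝ)) * (2 / Y)) := by
    refine htot.trans (mul_le_mul_of_nonneg_left ?_ hqpos.le)
    rw [sum_mul]
    apply sum_le_sum
    intro k hk
    exact Q4_level hG hY (hlamk k (mem_Ioc.1 hk).1) b
  obtain ⟨D, hD⟩ : ∃ D : Finset (Σ _ : ℕ, Σ _ : List ℕ, List ℕ),
    D = (Ioc m n).sigma fun k => Q4_pairs I N k Y q r G b := ⟨_, rfl⟩
  have hDcard : (D.card : ℝ) = ∑ k ∈ Ioc m n, ((Q4_pairs I N k Y q r G b).card : ℝ) := by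
    rw [hD, card_sigma]
    push_cast
    rfl
  have hDmem : ∀ p ∈ D, (m < p.1 ∧ p.1 ≤ n) ∧ (p.2.1 ∈ G ∧ rd p.2.1 b) ∧
      (p.2.2 ∈ words I p.1 ∧ p.2.2.sum = lam Y (N + p.1) - p.2.1.sum ∧
        (cw p.2.2 : ℝ) ≤ (5 / 4) ^ N * 2 ^ p.2.2.sum) ∧ rd p.2.2 (en p.2.1 b) ∧
        (q : ℤ) ∣ en p.2.2 (en p.2.1 b) - r := by
    intro p hp
    rw [hD, mem_sigma, Q4_pairs, mem_sigma, mem_filter, mem_filter, Vg, mem_filter, mem_Ioc] at hp
    exact ⟨hp.1, hp.2.1, hp.2.2.1, Q4_read (words_length hp.2.2.1.1) hp.2.2.2⟩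
  refine ⟨D.image fun p => p.2.1 ++ p.2.2, ?_, ?_⟩
  · rw [card_image_of_injOn]
    · rw [hDcard]
      rw [div_le_iff₀ (by positivity)]
      have h3 : q * ((∑ k ∈ Ioc m n, ((Q4_pairs I N k Y q r G b).card : ℝ)) * (2 / Y)) * Y =
          (∑ k ∈ Ioc m n, ((Q4_pairs I N k Y q r G b).card : ℝ)) * (2 * q) := by
        field_simp
      have h4 := mul_le_mul_of_nonneg_right hcount hYpos.le
      rw [h3] at h4
      linarith
    · rintro ⟨k, u, v⟩ hp ⟨k', u', v'⟩ hp' h
      rw [mem_coe] at hp hp'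
      have e1 := hDmem _ hp
      have e2 := hDmem _ hp'
      simp only at e1 e2 h
      obtain ⟨h3, h4⟩ := List.append_inj h (by rw [hG.len _ e1.2.1.1, hG.len _ e2.2.1.1])
      have h5 : k = k' := by
        rw [← words_length e1.2.2.1.1, ← words_length e2.2.2.1.1, h4]
      subst h3 h4 h5
      rfl
  · intro u hu
    rw [mem_image] at hu
    obtain ⟨⟨k, w, v⟩, hp, rfl⟩ := hu
    have e1 := hDmem _ hp
    simp only at e1 ⊢
    obtain ⟨⟨hk1, hk2⟩, ⟨hw1, hw2⟩, ⟨hv1, hv2, hv3⟩, hv4, hv5⟩ := e1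
    have hlk := hlamk k hk1
    have hhi := hG.hi w hw1
    have hlo := hG.lo w hw1
    have hsum : w.sum + v.sum = lam Y (N + k) := by omega
    refine ⟨rd_append.2 ⟨hw2, hv4⟩, ?_, ?_, ?_, ?_⟩
    · intro i hi
      rcases List.mem_append.1 hi with h3 | h3
      · exact hG.pos _ hw1 i h3
      · exact ((mem_words.1 hv1).2 i h3).1
    · have h3 := hG.cw _ hw1
      have h4 := hE.num
      rw [cw_append', List.sum_append, hG.len _ hw1]
      push_cast
      have h5 : (2 : ℝ) ^ ((199 * N + 99) / 100) ≤ 2 ^ w.sum :=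
        pow_le_pow_right₀ (by norm_num) (by omega)
      have h6 : (3 : ℝ) ^ N * (5 / 4) ^ N ≤ 1 * 2 ^ w.sum := by
        refine h4.trans ?_
        apply mul_le_mul _ h5 (by positivity) (by norm_num)
        have h7 : 1 / (N : ℝ) ≤ 1 := by
          rw [div_le_one hNpos]
          exact_mod_cast (by omega : 1 ≤ N)
        have h8 : (0 : ℝ) ≤ 1 / ((N + N / 20 : ℕ) : ℝ) := by positivity
        linarith
      have h7 : (3 : ℝ) ^ N * (cw v : ℝ) ≤ (1 * 2 ^ w.sum) * 2 ^ v.sum := by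
        calc (3 : ℝ) ^ N * (cw v : ℝ) ≤ 3 ^ N * ((5 / 4) ^ N * 2 ^ v.sum) :=
              mul_le_mul_of_nonneg_left hv3 (by positivity)
          _ = (3 ^ N * (5 / 4) ^ N) * 2 ^ v.sum := by ring
          _ ≤ _ := mul_le_mul_of_nonneg_right h6 (by positivity)
      have h8 : (2 : ℝ) ^ v.sum * (cw w : ℝ) ≤ 2 ^ v.sum * ((K + 1) * 2 ^ w.sum) :=
        mul_le_mul_of_nonneg_left h3 (by positivity)
      rw [pow_add]
      calc _ ≤ 2 ^ v.sum * ((K + 1) * 2 ^ w.sum) + (1 * 2 ^ w.sum) * 2 ^ v.sum :=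
            add_le_add h8 h7
        _ = _ := by ring
    · rw [List.sum_append, hsum, List.length_append, hG.len _ hw1, words_length hv1]
      exact two_pow_lam hY _
    · rw [en_append hw2]
      exact hv5

end Pool.Agent.PDQ
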