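import Pool.Agent.PDQ.St
import Pool.Agent.Collatz3.PDFinal

/-!
PDQ, module Q5: many words above every integer of one residue class, with end points in a class.
Hypotheses: `St_Q2`, `St_Q4`.
-/

set_option autoImplicit false
set_option linter.unusedVariables false

namespace Pool.Agent.PDQ

open Finset Filter
open Pool.Agent.Collatz3 (cw)
open Pool.Agent.Collatz3.Mix (words mem_words)
open Pool.Agent.Collatz3.PD

theorem Q5_two_three (n : ℕ) : 2 ^ (3 * n / 2) ≤ 3 ^ n := by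
  have h : (2 ^ (3 * n / 2)) ^ 2 ≤ (3 ^ n) ^ 2 := by
    rw [← pow_mul, ← pow_mul]
    calc 2 ^ (3 * n / 2 * 2) ≤ 2 ^ (3 * n) := Nat.pow_le_pow_right (by norm_num) (by omega)
      _ = (2 ^ 3) ^ n := by rw [← pow_mul]
      _ ≤ (3 ^ 2) ^ n := Nat.pow_le_pow_left (by norm_num) _
      _ = 3 ^ (n * 2) := by rw [← pow_mul, mul_comm]
  exact le_of_pow_le_pow_left₀ (by norm_num) (Nat.zero_le _) h

theorem Q5_Y {N Y : ℕ} (hN : 1000 ≤ N) (h2 : 100 * lam Y (N + N / 4) ≤ 199 * (N + N / 4)) :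
    Y < 2 ^ N := by
  by_contra hcon
  rw [not_lt] at hcon
  have h1 : Y * 3 ^ (N + N / 4) < 2 ^ (lam Y (N + N / 4) + 1) :=
    Nat.lt_pow_succ_log_self (by norm_num) _
  have h3 : 2 ^ (N + 3 * (N + N / 4) / 2) < 2 ^ (lam Y (N + N / 4) + 1) := by
    rw [pow_add]
    exact (Nat.mul_le_mul hcon (Q5_two_three _)).trans_lt h1
  have h4 := (Nat.pow_lt_pow_iff_right (by norm_num)).1 h3
  omega

theorem Q5_q {N q C Y : ℕ} (hN : 1000 ≤ N) (hq : 1 ≤ q) (hC : 400 ≤ C) (hY : Y < 2 ^ N)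
    (h : q ^ C ≤ Y) : (q : ℝ) ≤ 2 ^ (N / 200) := by
  have h1 : q ≤ 2 ^ (N / 200) := by
    by_contra hcon
    rw [not_le] at hcon
    have h2 : (2 ^ (N / 200)) ^ 400 < 2 ^ N := by
      calc (2 ^ (N / 200)) ^ 400 ≤ q ^ 400 := Nat.pow_le_pow_left hcon.le _
        _ ≤ q ^ C := Nat.pow_le_pow_right hq hC
        _ ≤ Y := h
        _ < 2 ^ N := hY
    rw [← pow_mul] at h2
    have h3 := (Nat.pow_lt_pow_iff_right (by norm_num)).1 h2
    omega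
  exact_mod_cast h1

theorem Q5_exp {N q C Y : ℕ} {δ : ℝ} (hC : 1 ≤ C * δ) (hC0 : C ≠ 0) (hY : Y < 2 ^ N)
    (h : q ^ C ≤ Y) : (q : ℝ) ≤ Real.exp (δ * N) := by
  by_contra hcon
  rw [not_le] at hcon
  have h1 : Real.exp (δ * N) ^ C < (q : ℝ) ^ C := pow_lt_pow_left₀ hcon (Real.exp_pos _).le hC0
  have h2 : (q : ℝ) ^ C ≤ 2 ^ N := by exact_mod_cast h.trans hY.le
  have h3 : (2 : ℝ) ^ N ≤ Real.exp (δ * N) ^ C := by
    rw [← Real.exp_nat_mul]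
    calc (2 : ℝ) ^ N ≤ Real.exp 1 ^ N := by
          apply pow_le_pow_left₀ (by norm_num)
          have := Real.add_one_le_exp 1
          linarith
      _ = Real.exp (N * 1) := by rw [← Real.exp_nat_mul]
      _ ≤ Real.exp (C * (δ * N)) := by
          apply Real.exp_le_exp.2
          have hN : (0 : ℝ) ≤ N := Nat.cast_nonneg _
          nlinarith
  linarith

theorem thm_Q5 (hQ2 : St_Q2) (hQ4 : St_Q4) : St_Q5 := by
  obtain ⟨δ, hδ, N₃, hQ2⟩ := hQ2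
  obtain ⟨N₁, hN₁⟩ := eventually_atTop.1 err2_ev
  obtain ⟨N₂, hN₂⟩ := eventually_atTop.1 base
  obtain ⟨N₀, hN₀⟩ : ∃ N₀, N₀ = max (max N₁ N₂) N₃ := ⟨_, rfl⟩
  have hN01 : N₁ ≤ N₀ := hN₀ ▸ (le_max_left _ _).trans (le_max_left _ _)
  have hN02 : N₂ ≤ N₀ := hN₀ ▸ (le_max_right _ _).trans (le_max_left _ _)
  have hN03 : N₃ ≤ N₀ := hN₀ ▸ le_max_right _ _
  have hE : ∀ N, N₀ ≤ N → Err2 N := fun N h => hN₁ N (hN01.trans h)
  obtain ⟨G₀, hG₀, c, hc⟩ := hN₂ N₀ hN02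
  have hbig := (hE N₀ le_rfl).big
  obtain ⟨C, hC⟩ : ∃ C : ℕ, C = max 400 ⌈1 / δ⌉₊ := ⟨_, rfl⟩
  have hC1 : 400 ≤ C := hC ▸ le_max_left _ _
  have hC2 : 1 ≤ C * δ := by
    have h1 : 1 / δ ≤ (C : ℝ) := by
      refine (Nat.le_ceil _).trans ?_
      exact_mod_cast hC ▸ le_max_right _ _
    rwa [div_le_iff₀ hδ] at h1
  refine ⟨N₀ + N₀ / 20, 2 ^ (3 * (N₀ + N₀ / 20) + 1), C, c, (N₀ : ℝ) ^ 4 + 2, by positivity,
    fun b hb Y q r hY hodd hqY => ?_⟩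
  have hY1 : 1 ≤ Y := le_trans Nat.one_le_two_pow hY
  have h0 : 201 * (N₀ + N₀ / 20) < 100 * lam Y (N₀ + N₀ / 20) := by
    have h1 : 3 * (N₀ + N₀ / 20) + 1 ≤ lam Y (N₀ + N₀ / 20) := by
      unfold lam
      apply Nat.le_log_of_pow_le (by norm_num)
      exact hY.trans (Nat.le_mul_of_pos_right _ (by positivity))
    omega
  obtain ⟨J, h1, h2⟩ := exists_scale hbig hY1 h0
  obtain ⟨h3, h4⟩ := chain_aux (fun N h => (hE N h).toErr) (K := (N₀ : ℝ) ^ 4) (by positivity)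
    le_rfl hG₀ J
  have hge := scale_ge N₀ J
  have hb1 := hc b hb
  have hb2 := h4 b
  have hN₀' : (1000 : ℝ) ≤ N₀ := by exact_mod_cast hbig
  have h5 : 1 / (N₀ : ℝ) ≤ 1 / 4 := by
    apply one_div_le_one_div_of_le (by norm_num)
    linarith
  have h6 : (0 : ℝ) ≤ 1 / (scale N₀ J : ℝ) := by positivity
  have hY2 : Y < 2 ^ scale N₀ J := Q5_Y (hbig.trans hge) h2
  have hq1 := Q5_q (hbig.trans hge) hodd.pos hC1 hY2 hqY
  have hq2 := Q5_exp hC2 (by omega) hY2 hqY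
  exact hQ4 (scale N₀ J) Y q r b ((N₀ : ℝ) ^ 4) _ (hE _ hge) (by positivity)
    (pow_le_pow_left₀ (Nat.cast_nonneg _) (by exact_mod_cast hge) 4)
    (h3.mono (by linarith)) hY1 h1 h2 (by linarith) hodd hq1
    (fun k s hk1 hk2 => hQ2 (scale N₀ J) (hN03.trans hge) k s q r hk1 hk2 hodd hq2)

end Pool.Agent.PDQ
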