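import Pool.Agent.PDQ.St
import Pool.Agent.Collatz3.PDFinal

/-!
PDQ, module Q6: the trees of the 3x+1 map in residue classes, odd moduli.  Hypothesis: `St_Q5`.
-/

set_option autoImplicit false
set_option linter.unusedVariables false

namespace Pool.Agent.PDQ

open Finset Filter
open Pool.Agent.Collatz3 (cw)
open Pool.Agent.Collatz3.Mix (words mem_words)
open Pool.Agent.Collatz3.PD
open Pool.Agent.Helper14 (T Back abs_le_finite)

/-- many preimages in a class of every nonperiodic integer of one residue class -/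
theorem Q6_int (hQ5 : St_Q5) : ∃ (M Y₀ C : ℕ) (c : ℤ) (K : ℝ), 1 ≤ K ∧ ∀ b : ℤ, b ≠ 0 →
    (∀ j, 0 < j → T^[j] b ≠ b) → (3 : ℤ) ^ M ∣ b - c → ∀ (Y q : ℕ) (r : ℤ), Y₀ ≤ Y → Odd q →
    q ^ C ≤ Y →
    (Y : ℝ) / (32 * q) ≤
      (Set.ncard {n : ℤ | n ∈ Back b (K * Y * |(b : ℝ)|) ∧ (q : ℤ) ∣ n - r} : ℝ) := by
  obtain ⟨M, Y₀, C, c, K, hK, h⟩ := hQ5
  refine ⟨M, Y₀, C, c, K + 1, by linarith, fun b hb0 hper hb Y q r hY hodd hqY => ?_⟩
  obtain ⟨H, hH, hu⟩ := h b hb Y q r hY hodd hqY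
  refine hH.trans ?_
  have hb1 : (1 : ℝ) ≤ |(b : ℝ)| := by
    have : 1 ≤ |b| := Int.one_le_abs hb0
    exact_mod_cast this
  have hinj : Set.InjOn (fun u => en u b) (H : Set (List ℕ)) := by
    intro u h1 v h2 he
    exact en_inj hb0 hper (hu u h1).1 (hu v h2).1 (hu u h1).2.1 (hu v h2).2.1 he
  have hsub : ((H.image fun u => en u b : Finset ℤ) : Set ℤ) ⊆
      {n : ℤ | n ∈ Back b ((K + 1) * Y * |(b : ℝ)|) ∧ (q : ℤ) ∣ n - r} := by
    intro n hn
    rw [mem_coe, mem_image] at hn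
    obtain ⟨u, hu1, rfl⟩ := hn
    obtain ⟨h1, h2, h3, h4, h40⟩ := hu u hu1
    refine ⟨⟨en_sign h1 hb0 h2, ?_, u.sum, T_en h1 h2⟩, h40⟩
    have h5 := en_bound h1
    have h6 : (2 : ℝ) ^ u.sum ≤ Y * 3 ^ u.length := by exact_mod_cast h4
    have h7 : (3 : ℝ) ^ u.length * |(en u b : ℝ)| ≤
        3 ^ u.length * ((K + 1) * Y * |(b : ℝ)|) := by
      calc (3 : ℝ) ^ u.length * |(en u b : ℝ)| ≤ 2 ^ u.sum * |(b : ℝ)| + cw u := h5
        _ ≤ 2 ^ u.sum * |(b : ℝ)| + K * 2 ^ u.sum := by linarith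
        _ = 2 ^ u.sum * (|(b : ℝ)| + K * 1) := by ring
        _ ≤ 2 ^ u.sum * (|(b : ℝ)| + K * |(b : ℝ)|) := by
            apply mul_le_mul_of_nonneg_left _ (by positivity)
            have := mul_le_mul_of_nonneg_left hb1 hK
            linarith
        _ ≤ (Y * 3 ^ u.length) * (|(b : ℝ)| + K * |(b : ℝ)|) :=
            mul_le_mul_of_nonneg_right h6 (by positivity)
        _ = _ := by ring
    exact le_of_mul_le_mul_left h7 (by positivity)
  have hfin : {n : ℤ | n ∈ Back b ((K + 1) * Y * |(b : ℝ)|) ∧ (q : ℤ) ∣ n - r}.Finite :=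
    (abs_le_finite _).subset fun _ h => h.1.2.1
  have h1 := Set.ncard_le_ncard hsub hfin
  rw [Set.ncard_coe_finset, card_image_of_injOn hinj] at h1
  exact_mod_cast h1

theorem thm_Q6 (hQ5 : St_Q5) : St_Q6 := by
  obtain ⟨c₀, hc₀, hback⟩ := back_density
  obtain ⟨M, Y₀, C, c, K, hK, h⟩ := Q6_int hQ5
  obtain ⟨B, hB⟩ := exists_child M c
  obtain ⟨D, hD⟩ : ∃ D : ℝ, D = K * (B + 1) := ⟨_, rfl⟩
  have hB0 : (0 : ℝ) ≤ B := Nat.cast_nonneg _
  have hD1 : 1 ≤ D := by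
    rw [hD]
    nlinarith
  have hY0 : (0 : ℝ) ≤ Y₀ := Nat.cast_nonneg _
  obtain ⟨E, hE⟩ : ∃ E : ℕ, D * (Y₀ + 2) < 3 ^ E := pow_unbounded_of_one_lt _ (by norm_num)
  refine ⟨min c₀ (1 / (64 * D)), C + E, lt_min hc₀ (by positivity), fun a ha q r x hodd hx => ?_⟩
  have ha0 : a ≠ 0 := by
    rintro rfl
    exact ha (dvd_zero _)
  have hq1 : 1 ≤ q := hodd.pos
  have hqr : (1 : ℝ) ≤ q := by exact_mod_cast hq1
  have hx1 : 1 ≤ x := (one_le_pow₀ hqr).trans hx
  rcases Nat.lt_or_ge q 3 with hq | hq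
  · have hq2 : q = 1 := by
      rcases hodd with ⟨t, ht⟩
      omega
    subst hq2
    have e : {n : ℤ | n ∈ Back a (x * |(a : ℝ)|) ∧ ((1 : ℕ) : ℤ) ∣ n - r} =
        Back a (x * |(a : ℝ)|) := by
      ext n
      simp
    rw [e]
    refine le_trans ?_ (hback a ha x hx1)
    rw [Nat.cast_one, div_one]
    exact mul_le_mul_of_nonneg_right (min_le_left _ _) (by linarith)
  · have hq3 : (3 : ℝ) ≤ q := by exact_mod_cast hq
    have hfin : {n : ℤ | n ∈ Back a (x * |(a : ℝ)|) ∧ (q : ℤ) ∣ n - r}.Finite :=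
      (abs_le_finite _).subset fun _ h => h.1.2.1
    obtain ⟨b, i, -, hbi, hbc, hbB, hsg, hper⟩ := hB a ha
    have hb0 : b ≠ 0 := by
      rintro rfl
      simp at hsg
    obtain ⟨Y, hY⟩ : ∃ Y, Y = ⌊x / D⌋₊ := ⟨_, rfl⟩
    have hx0 : 0 ≤ x / D := by positivity
    have hqC : (1 : ℝ) ≤ (q : ℝ) ^ C := one_le_pow₀ hqr
    have hxD : (q : ℝ) ^ C * (Y₀ + 2) ≤ x / D := by
      rw [le_div_iff₀ (by linarith)]
      calc (q : ℝ) ^ C * (Y₀ + 2) * D = (q : ℝ) ^ C * (D * (Y₀ + 2)) := by ring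
        _ ≤ (q : ℝ) ^ C * 3 ^ E := mul_le_mul_of_nonneg_left hE.le (by positivity)
        _ ≤ (q : ℝ) ^ C * q ^ E :=
            mul_le_mul_of_nonneg_left (pow_le_pow_left₀ (by norm_num) hq3 _) (by positivity)
        _ = (q : ℝ) ^ (C + E) := by rw [pow_add]
        _ ≤ x := hx
    have hxD2 : (Y₀ : ℝ) + 2 ≤ x / D := by
      refine le_trans ?_ hxD
      nlinarith
    have h1 : Y₀ ≤ Y := by
      rw [hY]
      apply Nat.le_floor
      linarith
    have h1' : q ^ C ≤ Y := by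
      rw [hY]
      apply Nat.le_floor
      push_cast
      refine le_trans ?_ hxD
      nlinarith
    have h2 : x / D - 1 ≤ Y := by
      have := Nat.lt_floor_add_one (x / D)
      rw [← hY] at this
      linarith
    have h3 : (Y : ℝ) * D ≤ x := by
      have := Nat.floor_le hx0
      rw [← hY, le_div_iff₀ (by linarith)] at this
      exact this
    have h4 := h b hb0 hper hbc Y q r h1 hodd h1'
    have hsub : {n : ℤ | n ∈ Back b (K * Y * |(b : ℝ)|) ∧ (q : ℤ) ∣ n - r} ⊆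
        {n : ℤ | n ∈ Back a (x * |(a : ℝ)|) ∧ (q : ℤ) ∣ n - r} := by
      rintro n ⟨⟨hn1, hn2, j, hj⟩, hn3⟩
      refine ⟨⟨?_, ?_, i + j, ?_⟩, hn3⟩
      · have h5 : 0 < (n * b) * (b * a) := mul_pos hn1 hsg
        have h6 : (n * b) * (b * a) = (n * a) * (b * b) := by ring
        rw [h6] at h5
        by_contra hcon
        have := mul_nonpos_of_nonpos_of_nonneg (not_lt.1 hcon) (mul_self_nonneg b)
        linarith
      · refine hn2.trans ?_
        have h7 : |(b : ℝ)| ≤ B * |(a : ℝ)| := by exact_mod_cast hbB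
        have ha' := abs_nonneg (a : ℝ)
        calc K * Y * |(b : ℝ)| ≤ K * Y * (B * |(a : ℝ)|) :=
              mul_le_mul_of_nonneg_left h7 (by positivity)
          _ ≤ K * Y * ((B + 1) * |(a : ℝ)|) := by
              apply mul_le_mul_of_nonneg_left _ (by positivity)
              nlinarith
          _ = (Y * D) * |(a : ℝ)| := by rw [hD]; ring
          _ ≤ x * |(a : ℝ)| := mul_le_mul_of_nonneg_right h3 ha'
      · rw [Function.iterate_add_apply, hj, hbi]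
    have h5 : ((Set.ncard {n : ℤ | n ∈ Back b (K * Y * |(b : ℝ)|) ∧ (q : ℤ) ∣ n - r} : ℕ) : ℝ) ≤
        (Set.ncard {n : ℤ | n ∈ Back a (x * |(a : ℝ)|) ∧ (q : ℤ) ∣ n - r} : ℝ) := by
      exact_mod_cast Set.ncard_le_ncard hsub hfin
    refine le_trans ?_ (h4.trans h5)
    have h6 : x / D / 2 ≤ Y := by linarith
    calc min c₀ (1 / (64 * D)) * x / q ≤ 1 / (64 * D) * x / q := by
          apply div_le_div_of_nonneg_right _ (by positivity)
          exact mul_le_mul_of_nonneg_right (min_le_right _ _) (by linarith)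
      _ = x / D / 2 / (32 * q) := by
          field_simp
          ring
      _ ≤ Y / (32 * q) := div_le_div_of_nonneg_right h6 (by positivity)

end Pool.Agent.PDQ
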