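import Pool.Agent.PDQ.St
import Pool.Agent.SLD.TWO

/-!
PDQ, [Q7]: all moduli (helper22).
-/

set_option autoImplicit false

namespace Pool.Agent.PDQ

open Pool.Agent.Helper14 (T Back)

theorem Q7_T_pos (n : ℤ) : 0 < T n ↔ 0 < n := by
  unfold T
  split_ifs with h
  · omega
  · omega

theorem Q7_T_neg (n : ℤ) : T n < 0 ↔ n < 0 := by
  unfold T
  split_ifs with h
  · omega
  · omega

theorem Q7_it_pos (i : ℕ) : ∀ n : ℤ, 0 < T^[i] n ↔ 0 < n := by
  induction i with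
  | zero => intro n; rfl
  | succ i ih =>
    intro n
    rw [Function.iterate_succ_apply, ih, Q7_T_pos]

theorem Q7_it_neg (i : ℕ) : ∀ n : ℤ, T^[i] n < 0 ↔ n < 0 := by
  induction i with
  | zero => intro n; rfl
  | succ i ih =>
    intro n
    rw [Function.iterate_succ_apply, ih, Q7_T_neg]

theorem Q7_it_mul_pos (i : ℕ) (n a : ℤ) (h : 0 < T^[i] n * a) : 0 < n * a := by
  rcases lt_trichotomy a 0 with ha | ha | ha
  · have h1 : T^[i] n < 0 := by
      by_contra hc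
      nlinarith [mul_nonneg (not_lt.1 hc) (neg_nonneg.2 ha.le)]
    exact mul_pos_of_neg_of_neg ((Q7_it_neg i n).1 h1) ha
  · rw [ha, mul_zero] at h
    exact absurd h (lt_irrefl _)
  · have h1 : 0 < T^[i] n := by
      by_contra hc
      nlinarith [mul_nonneg (neg_nonneg.2 (not_lt.1 hc)) ha.le]
    exact mul_pos ((Q7_it_pos i n).1 h1) ha

/-- one step of the parametrisation -/
theorem Q7_step (a : ℤ) (ha : a ≠ 0) (i q₁ α : ℕ) (r₀ t k : ℤ) (x : ℝ)
    (h0 : 0 ≤ r₀) (h1 : r₀ < 2 ^ i) (ht0 : 0 ≤ t) (ht1 : t < 3 ^ α)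
    (hl : ∀ l : ℤ, T^[i] (r₀ + 2 ^ i * l) = 3 ^ α * l + t) (hx : 4 * (2 : ℝ) ^ i ≤ x) :
    (Set.ncard {n : ℤ | n ∈ Back a (3 ^ α * x / 2 ^ (i + 1) * |(a : ℝ)|) ∧
      ((3 ^ α * q₁ : ℕ) : ℤ) ∣ n - (t + 3 ^ α * k)} : ℝ) ≤
    (Set.ncard {n : ℤ | n ∈ Back a (x * |(a : ℝ)|) ∧
      ((2 ^ i * q₁ : ℕ) : ℤ) ∣ n - (r₀ + 2 ^ i * k)} : ℝ) := by
  have h3 : (0 : ℤ) < 3 ^ α := by positivity
  have h2 : (0 : ℤ) < 2 ^ i := by positivity
  have h3R : (0 : ℝ) < 3 ^ α := by positivity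
  have h2R : (0 : ℝ) < 2 ^ i := by positivity
  have hfin : {n : ℤ | n ∈ Back a (x * |(a : ℝ)|) ∧
      ((2 ^ i * q₁ : ℕ) : ℤ) ∣ n - (r₀ + 2 ^ i * k)}.Finite :=
    (Pool.Agent.Helper14.back_finite a _).subset fun _ h => h.1
  have key : ∀ n : ℤ, n ∈ {n : ℤ | n ∈ Back a (3 ^ α * x / 2 ^ (i + 1) * |(a : ℝ)|) ∧
      ((3 ^ α * q₁ : ℕ) : ℤ) ∣ n - (t + 3 ^ α * k)} →
      ∃ d : ℤ, n = t + 3 ^ α * (k + q₁ * d) ∧ (n - t) / 3 ^ α = k + q₁ * d := by
    rintro n ⟨-, d, hd⟩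
    push_cast at hd
    have h4 : n = t + 3 ^ α * (k + q₁ * d) := by linear_combination hd
    refine ⟨d, h4, ?_⟩
    rw [h4, add_sub_cancel_left]
    exact Int.mul_ediv_cancel_left _ h3.ne'
  have h5 : Set.ncard {n : ℤ | n ∈ Back a (3 ^ α * x / 2 ^ (i + 1) * |(a : ℝ)|) ∧
      ((3 ^ α * q₁ : ℕ) : ℤ) ∣ n - (t + 3 ^ α * k)} ≤
      Set.ncard {n : ℤ | n ∈ Back a (x * |(a : ℝ)|) ∧
      ((2 ^ i * q₁ : ℕ) : ℤ) ∣ n - (r₀ + 2 ^ i * k)} := by
    refine Set.ncard_le_ncard_of_injOn (fun n => r₀ + 2 ^ i * ((n - t) / 3 ^ α)) ?_ ?_ hfin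
    · intro n hn
      obtain ⟨d, hd, he⟩ := key n hn
      obtain ⟨⟨g1, g2, j, g3⟩, -⟩ := hn
      rw [he]
      have e1 : T^[i] (r₀ + 2 ^ i * (k + q₁ * d)) = n := by
        rw [hl, hd]
        ring
      refine ⟨⟨?_, ?_, j + i, ?_⟩, ⟨d, ?_⟩⟩
      · apply Q7_it_mul_pos i
        rw [e1]
        exact g1
      · have ha1 : (1 : ℝ) ≤ |(a : ℝ)| := by
          have : 1 ≤ |a| := Int.one_le_abs ha
          exact_mod_cast this
        have e2 : (n : ℝ) = t + 3 ^ α * ((k : ℝ) + q₁ * d) := by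
          rw [hd]
          push_cast
          ring
        have e3 : |(3 : ℝ) ^ α * ((k : ℝ) + q₁ * d)| ≤
            3 ^ α * x / 2 ^ (i + 1) * |(a : ℝ)| + 3 ^ α := by
          have e4 : (3 : ℝ) ^ α * ((k : ℝ) + q₁ * d) = n - t := by
            rw [e2]
            ring
          rw [e4]
          have e5 : |(n : ℝ) - t| ≤ |(n : ℝ)| + |(t : ℝ)| := abs_sub _ _
          have e6 : |(t : ℝ)| ≤ 3 ^ α := by
            rw [abs_of_nonneg (by exact_mod_cast ht0)]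
            exact_mod_cast ht1.le
          linarith
        rw [abs_mul, abs_of_pos h3R] at e3
        have e7 : |((k : ℝ) + q₁ * d)| ≤ x / 2 ^ (i + 1) * |(a : ℝ)| + 1 := by
          have e8 : (3 : ℝ) ^ α * |((k : ℝ) + q₁ * d)| ≤
              3 ^ α * (x / 2 ^ (i + 1) * |(a : ℝ)| + 1) := by
            have e9 : (3 : ℝ) ^ α * (x / 2 ^ (i + 1) * |(a : ℝ)| + 1) =
                3 ^ α * x / 2 ^ (i + 1) * |(a : ℝ)| + 3 ^ α := by ring
            rw [e9]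
            exact e3
          exact le_of_mul_le_mul_left e8 h3R
        push_cast
        have e10 : |(r₀ : ℝ) + 2 ^ i * ((k : ℝ) + q₁ * d)| ≤
            |(r₀ : ℝ)| + 2 ^ i * |((k : ℝ) + q₁ * d)| := by
          have e11 := abs_add_le (r₀ : ℝ) (2 ^ i * ((k : ℝ) + q₁ * d))
          rw [abs_mul ((2 : ℝ) ^ i), abs_of_pos h2R] at e11
          exact e11
        have e12 : |(r₀ : ℝ)| ≤ 2 ^ i := by
          rw [abs_of_nonneg (by exact_mod_cast h0)]
          exact_mod_cast h1.le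
        have e13 : (2 : ℝ) ^ i * (x / 2 ^ (i + 1) * |(a : ℝ)| + 1) =
            x * |(a : ℝ)| / 2 + 2 ^ i := by
          rw [pow_succ]
          field_simp
        have e14 := mul_le_mul_of_nonneg_left e7 h2R.le
        have e15 : 4 * (2 : ℝ) ^ i * 1 ≤ x * |(a : ℝ)| :=
          mul_le_mul hx ha1 (by norm_num) (by linarith)
        linarith
      · rw [Function.iterate_add_apply, e1]
        exact g3
      · push_cast
        ring
    · intro n hn n' hn' he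
      obtain ⟨d, hd, hd2⟩ := key n hn
      obtain ⟨d', hd', hd2'⟩ := key n' hn'
      change r₀ + 2 ^ i * ((n - t) / 3 ^ α) = r₀ + 2 ^ i * ((n' - t) / 3 ^ α) at he
      have e1 : (n - t) / 3 ^ α = (n' - t) / 3 ^ α :=
        mul_left_cancel₀ h2.ne' (by linarith)
      rw [hd2, hd2'] at e1
      rw [hd, hd', e1]
  exact_mod_cast h5

theorem thm_Q7 (h1 : St_Q6) : St_Q7 := by
  obtain ⟨c, C, hc, h⟩ := h1
  refine ⟨c / 2, 2 * C + 3, by positivity, fun a ha q r x hq hx => ?_⟩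
  have ha0 : a ≠ 0 := by
    rintro rfl
    exact ha (dvd_zero _)
  have hqR : (1 : ℝ) ≤ q := by exact_mod_cast hq
  have hx1 : (1 : ℝ) ≤ x := (one_le_pow₀ hqR).trans hx
  by_cases hodd : Odd q
  · have h2 : (q : ℝ) ^ C ≤ x := (pow_le_pow_right₀ hqR (by omega)).trans hx
    refine le_trans ?_ (h a ha q r x hodd h2)
    apply div_le_div_of_nonneg_right _ (by linarith)
    apply mul_le_mul_of_nonneg_right _ (by linarith)
    linarith
  · obtain ⟨i, q₁, hq₁, hqi⟩ := Nat.exists_eq_two_pow_mul_odd (n := q) (by omega)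
    have hi : 1 ≤ i := by
      by_contra hc
      have h2 : i = 0 := by omega
      rw [h2, pow_zero, one_mul] at hqi
      rw [hqi] at hodd
      exact hodd hq₁
    have hq₁0 : 1 ≤ q₁ := hq₁.pos
    have hp : (0 : ℤ) < 2 ^ i := by positivity
    obtain ⟨α, t, hα, ht0, ht1, hl⟩ := Pool.Agent.SLD.TWO_A i (r % 2 ^ i)
      (Int.emod_nonneg _ hp.ne') (Int.emod_lt_of_pos _ hp)
    have hrr := Int.emod_add_mul_ediv r (2 ^ i)
    have hq1R : (1 : ℝ) ≤ q₁ := by exact_mod_cast hq₁0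
    have h2R : (0 : ℝ) < 2 ^ i := by positivity
    have h3R : (0 : ℝ) < 3 ^ α := by positivity
    have hqe : (q : ℝ) = 2 ^ i * q₁ := by
      rw [hqi]
      push_cast
      ring
    have h2q : (2 : ℝ) ^ i ≤ q := by
      rw [hqe]
      nlinarith
    have h22 : (2 : ℝ) ≤ 2 ^ i := by
      calc (2 : ℝ) = 2 ^ 1 := by norm_num
        _ ≤ 2 ^ i := pow_le_pow_right₀ (by norm_num) hi
    have hq2 : (2 : ℝ) ≤ q := h22.trans h2q
    have hx4 : 4 * (2 : ℝ) ^ i ≤ x := by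
      calc 4 * (2 : ℝ) ^ i ≤ 4 * q := by linarith
        _ ≤ (q : ℝ) ^ 3 := by nlinarith [mul_self_nonneg ((q : ℝ) - 2)]
        _ ≤ (q : ℝ) ^ (2 * C + 3) := pow_le_pow_right₀ hqR (by omega)
        _ ≤ x := hx
    have hstep := Q7_step a ha0 i q₁ α (r % 2 ^ i) t (r / 2 ^ i) x
      (Int.emod_nonneg _ hp.ne') (Int.emod_lt_of_pos _ hp) ht0 ht1 hl hx4
    rw [hrr, ← hqi] at hstep
    refine le_trans ?_ hstep
    have h4 : (((3 ^ α * q₁ : ℕ) : ℝ)) ^ C ≤ 3 ^ α * x / 2 ^ (i + 1) := by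
      have e1 : ((3 ^ α * q₁ : ℕ) : ℝ) ≤ (q : ℝ) ^ 2 := by
        push_cast
        have e2 : (3 : ℝ) ^ α ≤ (2 ^ i) ^ 2 := by
          calc (3 : ℝ) ^ α ≤ 3 ^ i := pow_le_pow_right₀ (by norm_num) hα
            _ ≤ 4 ^ i := pow_le_pow_left₀ (by norm_num) (by norm_num) i
            _ = (2 ^ i) ^ 2 := by
                rw [← pow_mul, mul_comm, pow_mul]
                norm_num
        rw [hqe, mul_pow]
        have e3 : (q₁ : ℝ) ≤ (q₁ : ℝ) ^ 2 := by nlinarith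
        exact mul_le_mul e2 e3 (by positivity) (by positivity)
      calc (((3 ^ α * q₁ : ℕ) : ℝ)) ^ C ≤ ((q : ℝ) ^ 2) ^ C :=
            pow_le_pow_left₀ (by positivity) e1 C
        _ = (q : ℝ) ^ (2 * C) := by rw [← pow_mul]
        _ ≤ 3 ^ α * x / 2 ^ (i + 1) := by
            rw [le_div_iff₀ (by positivity)]
            calc (q : ℝ) ^ (2 * C) * 2 ^ (i + 1) ≤ (q : ℝ) ^ (2 * C) * (q : ℝ) ^ 3 := by
                  apply mul_le_mul_of_nonneg_left _ (by positivity)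
                  rw [pow_succ]
                  nlinarith [mul_self_nonneg ((q : ℝ) - 2)]
              _ = (q : ℝ) ^ (2 * C + 3) := by rw [pow_add]
              _ ≤ x := hx
              _ ≤ 3 ^ α * x := by
                  have : (1 : ℝ) ≤ 3 ^ α := one_le_pow₀ (by norm_num)
                  nlinarith
    have hodd3 : Odd (3 ^ α * q₁) := (Odd.pow (by decide)).mul hq₁
    have h5 := h a ha (3 ^ α * q₁) (t + 3 ^ α * (r / 2 ^ i)) (3 ^ α * x / 2 ^ (i + 1)) hodd3 h4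
    refine le_trans (le_of_eq ?_) h5
    rw [hqe]
    push_cast
    rw [pow_succ]
    field_simp

end Pool.Agent.PDQ
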