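import Pool.Agent.PDQ.St
import Pool.Agent.Collatz3.PDGrand

/-!
PDQ, block Q8: all starting points.
-/

set_option autoImplicit false

namespace Pool.Agent.PDQ

open Finset Filter Topology
open Pool.Agent.Collatz3.PD (exists_prime_to_three grand_density)
open Pool.Agent.Helper14 (T Back abs_le_finite)

/-- [Q8] -/
theorem thm_Q8 (h7 : St_Q7) : St_Q8 := by
  obtain ⟨c, C, hc, h⟩ := h7
  obtain ⟨c₁, hc₁, h₁⟩ := grand_density
  refine ⟨min c₁ (c / 2), C + 1, by positivity, ?_⟩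
  intro m hm q r x hq hx
  have hfin : {n : ℤ | 0 < n * m ∧ |(n : ℝ)| ≤ x * |(m : ℝ)| ∧
      (q : ℤ) ∣ n - r ∧ ∃ j k : ℕ, T^[j] n = T^[k] m ∧ (¬ (3 : ℤ) ∣ m → k = 0)}.Finite :=
    (abs_le_finite _).subset fun _ h => h.2.1
  have hq1 : (1 : ℝ) ≤ q := by exact_mod_cast hq
  have hx1 : 1 ≤ x := (one_le_pow₀ hq1).trans hx
  by_cases hq2 : q = 1
  · subst hq2
    have e1 : {n : ℤ | 0 < n * m ∧ |(n : ℝ)| ≤ x * |(m : ℝ)| ∧
        ∃ j k : ℕ, T^[j] n = T^[k] m ∧ (¬ (3 : ℤ) ∣ m → k = 0)} ⊆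
        {n : ℤ | 0 < n * m ∧ |(n : ℝ)| ≤ x * |(m : ℝ)| ∧
        ((1 : ℕ) : ℤ) ∣ n - r ∧ ∃ j k : ℕ, T^[j] n = T^[k] m ∧ (¬ (3 : ℤ) ∣ m → k = 0)} := by
      rintro n ⟨a1, a2, a3⟩
      exact ⟨a1, a2, by rw [Nat.cast_one]; exact one_dvd _, a3⟩
    have e2 := h₁ m hm x hx1
    have e3 := Set.ncard_le_ncard e1 hfin
    have e4 : min c₁ (c / 2) * x ≤ c₁ * x :=
      mul_le_mul_of_nonneg_right (min_le_left _ _) (by linarith)
    rw [Nat.cast_one, div_one]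
    refine e4.trans (e2.trans ?_)
    exact_mod_cast e3
  · have hq2' : (2 : ℝ) ≤ q := by
      have : 2 ≤ q := by omega
      exact_mod_cast this
    obtain ⟨k, a, hk, ha3, ham, hsg, hk0⟩ := exists_prime_to_three hm
    have hx2 : (q : ℝ) ^ C ≤ x / 2 := by
      rw [le_div_iff₀ (by norm_num : (0 : ℝ) < 2)]
      calc (q : ℝ) ^ C * 2 ≤ (q : ℝ) ^ C * q := mul_le_mul_of_nonneg_left hq2' (by positivity)
        _ = (q : ℝ) ^ (C + 1) := (pow_succ _ _).symm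
        _ ≤ x := hx
    have e1 := h a ha3 q r (x / 2) hq hx2
    have hsub : {n : ℤ | n ∈ Back a (x / 2 * |(a : ℝ)|) ∧ (q : ℤ) ∣ n - r} ⊆
        {n : ℤ | 0 < n * m ∧ |(n : ℝ)| ≤ x * |(m : ℝ)| ∧
        (q : ℤ) ∣ n - r ∧ ∃ j k : ℕ, T^[j] n = T^[k] m ∧ (¬ (3 : ℤ) ∣ m → k = 0)} := by
      rintro n ⟨⟨hn1, hn2, j, hj⟩, hn3⟩
      refine ⟨?_, ?_, hn3, j, k, by rw [hj, hk], hk0⟩
      · have h3 : 0 < (n * a) * (a * m) := mul_pos hn1 hsg
        have h4 : (n * a) * (a * m) = (n * m) * (a * a) := by ring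
        rw [h4] at h3
        by_contra hcon
        have := mul_nonpos_of_nonpos_of_nonneg (not_lt.1 hcon) (mul_self_nonneg a)
        linarith
      · refine hn2.trans ?_
        have h3 : |(a : ℝ)| ≤ 2 * |(m : ℝ)| := by exact_mod_cast ham
        calc x / 2 * |(a : ℝ)| ≤ x / 2 * (2 * |(m : ℝ)|) :=
              mul_le_mul_of_nonneg_left h3 (by linarith)
          _ = x * |(m : ℝ)| := by ring
    have e2 := Set.ncard_le_ncard hsub hfin
    have e3 : min c₁ (c / 2) * x / q ≤ c * (x / 2) / q := by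
      refine div_le_div_of_nonneg_right ?_ (by linarith)
      calc min c₁ (c / 2) * x ≤ (c / 2) * x :=
            mul_le_mul_of_nonneg_right (min_le_right _ _) (by linarith)
        _ = c * (x / 2) := by ring
    refine e3.trans (e1.trans ?_)
    exact_mod_cast e2

end Pool.Agent.PDQ
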