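import Pool.Agent.PDQ.Q1
import Pool.Agent.PDQ.Q2
import Pool.Agent.PDQ.Q3
import Pool.Agent.PDQ.Q4
import Pool.Agent.PDQ.Q5
import Pool.Agent.PDQ.Q6
import Pool.Agent.PDQ.Q7
import Pool.Agent.PDQ.Q8
import Pool.Agent.SLD.All

/-! PDQ: all statements, without hypotheses. -/

set_option autoImplicit false

namespace Pool.Agent.PDQ

theorem all_Q2 : St_Q2 := thm_Q2 Pool.Agent.SLD.all_MIX Pool.Agent.SLD.thm_TAL
theorem all_Q4 : St_Q4 := thm_Q4 thm_Q1 thm_Q3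
theorem all_Q5 : St_Q5 := thm_Q5 all_Q2 all_Q4
theorem all_Q6 : St_Q6 := thm_Q6 all_Q5
theorem all_Q7 : St_Q7 := thm_Q7 all_Q6
theorem all_Q8 : St_Q8 := thm_Q8 all_Q7

end Pool.Agent.PDQ
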