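import Pool.Agent.PDQ.St
import Pool.Agent.Collatz3.PDTree

/-!
PDQ (helper82): Q1, the counting lemma for the modulus `Q`.
-/

set_option autoImplicit false

namespace Pool.Agent.PDQ

open Finset
open Pool.Agent.Collatz3 (cw)
open Pool.Agent.Collatz3.Mix (cw_inj)
open Pool.Agent.Collatz3.PD (rd en en_spec)

theorem Q1_shift_sum {Q : ℕ} {g : ℤ → ℝ} (hg : PerQ Q g) (c : ℤ) :
    ∑ j ∈ range Q, g (c + j) = ∑ j ∈ range Q, g (j : ℤ) := by
  have step : ∀ c : ℤ, ∑ j ∈ range Q, g (c + 1 + j) = ∑ j ∈ range Q, g (c + j) := by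
    intro c
    have h1 := sum_range_succ (fun j : ℕ => g (c + j)) Q
    have h2 := sum_range_succ' (fun j : ℕ => g (c + j)) Q
    rw [h1] at h2
    have h3 : g (c + (Q : ℤ)) = g c := by
      have := hg c 1
      rw [mul_one] at this
      exact this
    have h4 : ∑ j ∈ range Q, g (c + ((j + 1 : ℕ) : ℤ)) =
        ∑ j ∈ range Q, g (c + 1 + j) := by
      apply sum_congr rfl
      intro j _
      congr 1
      push_cast
      ring
    rw [h3, h4] at h2
    simp only [Nat.cast_zero, add_zero] at h2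
    linarith
  induction c using Int.induction_on with
  | zero => simp
  | succ i ih => rw [step, ih]
  | pred i ih =>
    rw [← ih, ← step (-(i : ℤ) - 1)]
    apply sum_congr rfl
    intro j _
    congr 1
    ring

theorem Q1_shift_sum_mul {Q : ℕ} {g : ℤ → ℝ} (hg : PerQ Q g) (c : ℤ) (R : ℕ) :
    ∑ j ∈ range (R * Q), g (c + j) = R * ∑ j ∈ range Q, g (j : ℤ) := by
  induction R with
  | zero => simp
  | succ R ih =>
    rw [Nat.succ_mul, sum_range_add, ih]
    have h : ∑ j ∈ range Q, g (c + ((R * Q + j : ℕ) : ℤ)) = ∑ j ∈ range Q, g (j : ℤ) := by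
      rw [← Q1_shift_sum hg (c + ((R * Q : ℕ) : ℤ))]
      apply sum_congr rfl
      intro j _
      congr 1
      push_cast
      ring
    rw [h]
    push_cast
    ring

/-- The counting lemma for words with a given sum. -/
theorem Q1_count_sum {N s Q : ℕ} {K : ℝ} (hK : 0 ≤ K) (hQ : 1 ≤ Q) {a : ℤ}
    {G : Finset (List ℕ)}
    (hlen : ∀ w ∈ G, w.length = N) (hpos : ∀ w ∈ G, ∀ i ∈ w, 1 ≤ i) (hsum : ∀ w ∈ G, w.sum = s)
    (hcw : ∀ w ∈ G, (cw w : ℝ) ≤ K * 2 ^ s) (hrd : ∀ w ∈ G, rd w a)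
    {g : ℤ → ℝ} (hg : PerQ Q g) (hg0 : ∀ x, 0 ≤ g x) (hs : (3 : ℝ) ^ N * Q ≤ 2 ^ s) :
    ∑ w ∈ G, g (en w a) ≤ (K + 1) * 2 ^ s / (3 ^ N * Q) * ∑ j ∈ range Q, g (j : ℤ) := by
  have hQ0 : (0 : ℝ) < Q := by exact_mod_cast hQ
  -- the interval
  obtain ⟨hi, hhi⟩ : ∃ hi : ℤ, hi = 2 ^ s * a / 3 ^ N := ⟨_, rfl⟩
  obtain ⟨L, hL⟩ : ∃ L : ℕ, L = ⌊K * 2 ^ s / 3 ^ N⌋₊ := ⟨_, rfl⟩
  obtain ⟨R, hR⟩ : ∃ R : ℕ, R = L / Q + 1 := ⟨_, rfl⟩
  obtain ⟨c, hc⟩ : ∃ c : ℤ, c = hi - L := ⟨_, rfl⟩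
  have h3N : (0 : ℤ) < 3 ^ N := by positivity
  have hbd : ∀ w ∈ G, c ≤ en w a ∧ en w a ≤ hi := by
    intro w hw
    have h1 := en_spec (hrd w hw)
    rw [hlen w hw, hsum w hw] at h1
    have hle : en w a ≤ hi := by
      rw [hhi, Int.le_ediv_iff_mul_le h3N]
      have : (0 : ℤ) ≤ cw w := Int.natCast_nonneg _
      linarith
    refine ⟨?_, hle⟩
    -- hi - en ≤ cw / 3 ^ N
    have h2 : 3 ^ N * hi ≤ 2 ^ s * a := by
      rw [hhi]
      exact Int.mul_ediv_self_le h3N.ne'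
    have h3 : 3 ^ N * (hi - en w a) ≤ cw w := by
      rw [mul_sub]
      linarith
    have h4 : (3 : ℝ) ^ N * ((hi - en w a : ℤ) : ℝ) ≤ K * 2 ^ s := by
      refine le_trans ?_ (hcw w hw)
      exact_mod_cast h3
    have h5 : (((hi - en w a).toNat : ℕ) : ℝ) = ((hi - en w a : ℤ) : ℝ) := by
      have : (((hi - en w a).toNat : ℕ) : ℤ) = hi - en w a := Int.toNat_of_nonneg (by omega)
      exact_mod_cast this
    have h6 : (hi - en w a).toNat ≤ L := by
      rw [hL]
      apply Nat.le_floor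
      rw [h5, le_div_iff₀ (by positivity)]
      linarith
    rw [hc]
    omega
  have hinj : Set.InjOn (fun w => (en w a - c).toNat) (G : Set (List ℕ)) := by
    intro w hw w' hw' h
    rw [mem_coe] at hw hw'
    simp only at h
    have e1 := hbd w hw
    have e2 := hbd w' hw'
    have e3 : en w a = en w' a := by omega
    have h1 := en_spec (hrd w hw)
    have h2 := en_spec (hrd w' hw')
    rw [hlen w hw, hsum w hw] at h1
    rw [hlen w' hw', hsum w' hw', ← e3] at h2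
    have h3 : (cw w : ℤ) = cw w' := by linarith
    exact cw_inj (hlen w hw) (hlen w' hw') (hpos w hw) (hpos w' hw')
      ((hsum w hw).trans (hsum w' hw').symm) (by exact_mod_cast h3)
  have h1 : ∑ w ∈ G, g (en w a) = ∑ j ∈ G.image (fun w => (en w a - c).toNat), g (c + j) := by
    rw [sum_image hinj]
    apply sum_congr rfl
    intro w hw
    have e1 := hbd w hw
    congr 1
    omega
  have hsub : G.image (fun w => (en w a - c).toNat) ⊆ range (R * Q) := by
    intro j hj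
    rw [mem_image] at hj
    obtain ⟨w, hw, rfl⟩ := hj
    rw [mem_range]
    have e1 := hbd w hw
    have e2 : L < R * Q := by
      rw [hR, Nat.add_mul, Nat.one_mul]
      have := Nat.lt_div_mul_add (a := L) (b := Q) hQ
      exact this
    omega
  have hS0 : 0 ≤ ∑ j ∈ range Q, g (j : ℤ) := sum_nonneg fun _ _ => hg0 _
  have h2 : ∑ w ∈ G, g (en w a) ≤ R * ∑ j ∈ range Q, g (j : ℤ) := by
    rw [h1, ← Q1_shift_sum_mul hg c R]
    exact sum_le_sum_of_subset_of_nonneg hsub fun _ _ _ => hg0 _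
  refine h2.trans ?_
  apply mul_le_mul_of_nonneg_right _ hS0
  have h3 : (R : ℝ) ≤ K * 2 ^ s / 3 ^ N / Q + 1 := by
    rw [hR]
    push_cast
    have e1 : ((L / Q : ℕ) : ℝ) ≤ (L : ℝ) / (Q : ℝ) := Nat.cast_div_le
    have e2 : (L : ℝ) ≤ K * 2 ^ s / 3 ^ N := by
      rw [hL]
      exact Nat.floor_le (by positivity)
    have e3 : (L : ℝ) / (Q : ℝ) ≤ K * 2 ^ s / 3 ^ N / Q :=
      div_le_div_of_nonneg_right e2 hQ0.le
    linarith
  refine h3.trans ?_
  rw [div_div, add_mul, add_div, one_mul]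
  have h4 : (1 : ℝ) ≤ 2 ^ s / (3 ^ N * Q) := by
    rw [one_le_div (by positivity)]
    exact hs
  linarith

/-- [Q1] the counting lemma for the modulus `Q`. -/
theorem thm_Q1 : St_Q1 := by
  intro N s₁ s₂ Q K δ a G g hK hQ hlen hpos h₁ h₂ hcw hg hg0 hδ hs
  have hQ0 : (0 : ℝ) < Q := by exact_mod_cast hQ
  rw [← sum_fiberwise_of_maps_to (s := G.filter fun w => rd w a) (t := Icc s₁ s₂)
    (g := fun w => w.sum) (fun w hw => by
      rw [mem_filter] at hw
      exact mem_Icc.2 ⟨h₁ w hw.1, h₂ w hw.1⟩)]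
  have h : ∀ s ∈ Icc s₁ s₂, ∑ w ∈ (G.filter fun w => rd w a).filter (fun w => w.sum = s),
      3 ^ w.length * (1 / 2 : ℝ) ^ w.sum * g w.sum (en w a) ≤ (K + 1) * δ := by
    intro s hs'
    rw [mem_Icc] at hs'
    have e1 : ∑ w ∈ (G.filter fun w => rd w a).filter (fun w => w.sum = s),
        3 ^ w.length * (1 / 2 : ℝ) ^ w.sum * g w.sum (en w a) = 3 ^ N * (1 / 2 : ℝ) ^ s *
        ∑ w ∈ (G.filter fun w => rd w a).filter (fun w => w.sum = s), g s (en w a) := by
      rw [mul_sum]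
      apply sum_congr rfl
      intro w hw
      rw [mem_filter, mem_filter] at hw
      rw [hlen w hw.1.1, hw.2]
    rw [e1]
    have e2 := Q1_count_sum hK hQ (G := (G.filter fun w => rd w a).filter (fun w => w.sum = s))
      (N := N) (s := s) (a := a)
      (fun w hw => hlen w (mem_filter.1 (mem_filter.1 hw).1).1)
      (fun w hw => hpos w (mem_filter.1 (mem_filter.1 hw).1).1)
      (fun w hw => (mem_filter.1 hw).2)
      (fun w hw => by
        have := hcw w (mem_filter.1 (mem_filter.1 hw).1).1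
        rwa [(mem_filter.1 hw).2] at this)
      (fun w hw => (mem_filter.1 (mem_filter.1 hw).1).2) (hg s) (hg0 s)
      (hs.trans (pow_le_pow_right₀ (by norm_num) hs'.1))
    have e3 : 3 ^ N * (1 / 2 : ℝ) ^ s *
        ((K + 1) * 2 ^ s / (3 ^ N * Q) * ∑ j ∈ range Q, g s (j : ℤ)) =
        (K + 1) * AQ Q (g s) := by
      unfold AQ
      rw [one_div, inv_pow]
      field_simp
    refine (mul_le_mul_of_nonneg_left e2 (by positivity)).trans ?_
    rw [e3]
    exact mul_le_mul_of_nonneg_left (hδ s hs'.1 hs'.2) (by linarith)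
  refine (sum_le_sum h).trans (le_of_eq ?_)
  rw [sum_const, Nat.card_Icc, nsmul_eq_mul]

end Pool.Agent.PDQ
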