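import Pool.Agent.SLD.StA
import Pool.Agent.Collatz3.PDGrand

/-!
PDQ (helper30): the trees of the 3x+1 map in residue classes, statements with proofs in the
docstrings.  `PD` = `Pool.Agent.Collatz3.PD` (the positive density theorem, files `Collatz3/PD*.lean`).
Every integer `a` prime to 3 has at least `c x / q` predecessors `n = r` modulo `q` of the sign of `a` with
`|n| ≤ x |a|`, for all `x ≥ q ^ C`; `c`, `C` absolute.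
-/

set_option autoImplicit false
set_option linter.unusedVariables false

namespace Pool.Agent.PDQ

open Finset Filter Topology
open Pool.Agent.Collatz3 (cw)
open Pool.Agent.Collatz3.Mix (words)
open Pool.Agent.Collatz3.PD (rd en Fw U E P A Good badV Vg lam II Err2)
open Pool.Agent.Helper14 (T Back)

/-- `g` is periodic modulo `Q` -/
def PerQ (Q : ℕ) (g : ℤ → ℝ) : Prop := ∀ x t : ℤ, g (x + Q * t) = g x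

/-- the mean over a period -/
noncomputable def AQ (Q : ℕ) (g : ℤ → ℝ) : ℝ := (∑ x ∈ range Q, g (x : ℤ)) / Q

/-- the mass of the words `v` with `k` letters in `1, ..., I` and sum `s` which can be read at `y`, with end point `r`
modulo `q` (`2 ^ s y - cw v = 3 ^ k n`, `q ∣ n - r`) -/
noncomputable def Fq (I k s q : ℕ) (r y : ℤ) : ℝ :=
  ∑ _v ∈ (words I k).filter (fun v => v.sum = s ∧ (3 : ℤ) ^ k * q ∣ 2 ^ s * y - cw v - 3 ^ k * r),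
    (1 / 2 : ℝ) ^ s

/-- the mass `3 ^ k 2 ^ (-s)` of the words `v` (with `k` letters) of `V` which can be read at `y`, with end point `r` modulo `q` -/
noncomputable def Ec (V : Finset (List ℕ)) (k q : ℕ) (r y : ℤ) : ℝ :=
  ∑ v ∈ V.filter (fun v => (3 : ℤ) ^ k * q ∣ 2 ^ v.sum * y - cw v - 3 ^ k * r),
    3 ^ k * (1 / 2 : ℝ) ^ v.sum

/-- [Q1] the counting lemma for the modulus `Q`.
PROOF.  As `PD.count_sum` and `PD.count_all'` (file `PDTree.lean`), with `Q` for `3 ^ k`: for each sum `s` the end points `en w a` are distinct integers in an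
interval of length `K 2 ^ s / 3 ^ N`, which has at most `K 2 ^ s / (3 ^ N Q) + 1 ≤ (K + 1) 2 ^ s / (3 ^ N Q)` periods. -/
def St_Q1 : Prop :=
  ∀ (N s₁ s₂ Q : ℕ) (K δ : ℝ) (a : ℤ) (G : Finset (List ℕ)) (g : ℕ → ℤ → ℝ), 0 ≤ K → 1 ≤ Q →
    (∀ w ∈ G, w.length = N) → (∀ w ∈ G, ∀ i ∈ w, 1 ≤ i) → (∀ w ∈ G, s₁ ≤ w.sum) →
    (∀ w ∈ G, w.sum ≤ s₂) → (∀ w ∈ G, (cw w : ℝ) ≤ K * 2 ^ w.sum) →
    (∀ s, PerQ Q (g s)) → (∀ s x, 0 ≤ g s x) → (∀ s, s₁ ≤ s → s ≤ s₂ → AQ Q (g s) ≤ δ) →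
    (3 : ℝ) ^ N * Q ≤ 2 ^ s₁ →
    ∑ w ∈ G.filter (fun w => rd w a), 3 ^ w.length * (1 / 2 : ℝ) ^ w.sum * g w.sum (en w a) ≤
      ((s₂ + 1 - s₁ : ℕ) : ℝ) * ((K + 1) * δ)

/-- [Q2] mixing in residue classes.
PROOF.  `q = 3 ^ a q₀`, `¬ 3 ∣ q₀`.  `P = SLD.P`, `m = N / 20`.  (1) `words I k` against `W k s`: `words I k` with sum `s` is a subset of `W k s`, and the mass of the other words is at most
`1 - Z I ^ k ≤ k (1 / 2) ^ I ≤ 2 ^ 12 / N ^ 11` (`SLD.St_WRD` (b), `PD.P_words`, `PD.one_sub_Z_pow`, `PD.half_pow_II`); a word belongs to exactly one `y` modulo `3 ^ k q` (and modulo `3 ^ j`).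
(2) `2 ^ s β = 3 ^ k r` modulo `3 ^ k q`: `3 ^ k q ∣ 2 ^ s y - cw v - 3 ^ k r ↔ 3 ^ k q ∣ 2 ^ s (y - β) - cw v`, and `3 ^ k ∣ β`, so functions of `y` modulo `3 ^ k` are not changed.
(3) `∑_{y < 3 ^ k q} |P (3 ^ k q) k s y - (3 ^ (k / 4) / (3 ^ k q)) P (3 ^ (k / 4)) k s y| ≤ Osc ≤ C / k ^ 9` for `s ≤ 21 k / 10` (`SLD.St_MIX` with `B = 9`: `q ≤ exp (δ N) ≤ exp (δ' k)`); for the other `s`: `2 ρ ^ k` (`SLD.St_TAL`).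
(4) the same for `q = 1`, and `PD.mix_small_s PD.mixRate` from `3 ^ k` to `3 ^ m`. -/
def St_Q2 : Prop :=
  ∃ δ : ℝ, 0 < δ ∧ ∃ N₀ : ℕ, ∀ N : ℕ, N₀ ≤ N → ∀ (k s q : ℕ) (r : ℤ), N / 20 ≤ k → k ≤ N / 4 →
    Odd q → (q : ℝ) ≤ Real.exp (δ * N) →
    AQ (3 ^ k * q) (fun y => |3 ^ k * q * Fq (II N) k s q r y -
      3 ^ (N / 20) * Fw (II N) k s (N / 20) y|) ≤ 3 / (N : ℝ) ^ 8

/-- [Q3] PROOF.  `2` is invertible modulo `3 ^ k q`: every `v` belongs to exactly one `y` modulo `3 ^ k q`.  Last part as `PD.E_Vg_ge`. -/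
def St_Q3 : Prop :=
  (∀ (V : Finset (List ℕ)) (k q : ℕ) (r : ℤ), Odd q → PerQ (3 ^ k * q) (Ec V k q r) ∧
    AQ (3 ^ k * q) (Ec V k q r) = P V / q) ∧
  (∀ (I k s q : ℕ) (r : ℤ), PerQ (3 ^ k * q) (Fq I k s q r)) ∧
  ∀ (I N k θ q : ℕ) (r y : ℤ),
    3 ^ k * Fq I k θ q r y - Ec (badV I N k) k q r y ≤ Ec (Vg I N k θ) k q r y

/-- [Q4] the final count at one scale, in a class.
PROOF.  As `PD.count_words` (file `PDCount.lean`), with `Ec (Vg ..) k q r` for `E (Vg ..) (fun _ => 1)`: by `PD.coarse_ge`, Q3 (last part) and the triangle inequality the sum over `w`, `k` of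
`3 ^ w.length 2 ^ (-w.sum) Ec (Vg ..) k q r (en w b)` is at least `(1 / q)` times `(1 / 4) (1 / 2 - ε) - (N / 4) (3 ε + ε) ≥ 1 / 16`, `ε = N (K + 2) / N ^ 8`: the errors
`|3 ^ k Fq .. - (1 / q) 3 ^ (N / 20) Fw ..|` and `Ec (badV ..)` are bounded by Q1 with `Q = 3 ^ k q` (`3 ^ N 3 ^ k q ≤ 3 ^ (5 N / 4) 2 ^ (N / 200) ≤ 2 ^ (199 N / 100)`) and the hypothesis, Q3 (`PD.Err.bad`).
Each pair has weight at most `2 / Y` (`PD.wt_le`).  `en (w ++ v) b = en v (en w b)`. -/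
def St_Q4 : Prop :=
  ∀ (N Y q : ℕ) (r b : ℤ) (K : ℝ) (G : Finset (List ℕ)), Err2 N → 0 ≤ K → K ≤ (N : ℝ) ^ 4 →
    Good N (K + 1) G → 1 ≤ Y →
    201 * (N + N / 20) < 100 * lam Y (N + N / 20) →
    100 * lam Y (N + N / 4) ≤ 199 * (N + N / 4) →
    1 / 2 ≤ E G (U (II N) (N / 20)) b →
    Odd q → (q : ℝ) ≤ 2 ^ (N / 200) →
    (∀ k s : ℕ, N / 20 ≤ k → k ≤ N / 4 → AQ (3 ^ k * q) (fun y => |3 ^ k * q * Fq (II N) k s q r y -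
      3 ^ (N / 20) * Fw (II N) k s (N / 20) y|) ≤ 3 / (N : ℝ) ^ 8) →
    ∃ H : Finset (List ℕ), (Y : ℝ) / (32 * q) ≤ H.card ∧ ∀ u ∈ H, rd u b ∧ (∀ i ∈ u, 1 ≤ i) ∧
      (cw u : ℝ) ≤ (K + 2) * 2 ^ u.sum ∧ 2 ^ u.sum ≤ Y * 3 ^ u.length ∧ (q : ℤ) ∣ en u b - r

/-- [Q5] PROOF.  As `PD.count_b` (file `PDFinal.lean`) with Q2, Q4.  The scale `N` of `PD.exists_scale` has `N ≥ log₂ Y`: `Y 3 ^ (N + N / 4) < 2 ^ (lam + 1)`, `lam ≤ 1.99 (N + N / 4)`; so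
`q ^ C ≤ Y` gives `q ≤ 2 ^ (N / C)`, `≤ exp (δ N)` and `≤ 2 ^ (N / 200)` (natural division) for `C` large, if `q ≥ 3`; `q = 1` is clear. -/
def St_Q5 : Prop :=
  ∃ (M Y₀ C : ℕ) (c : ℤ) (K : ℝ), 0 ≤ K ∧ ∀ b : ℤ, (3 : ℤ) ^ M ∣ b - c → ∀ (Y q : ℕ) (r : ℤ),
    Y₀ ≤ Y → Odd q → q ^ C ≤ Y →
    ∃ H : Finset (List ℕ), (Y : ℝ) / (32 * q) ≤ H.card ∧ ∀ u ∈ H, rd u b ∧ (∀ i ∈ u, 1 ≤ i) ∧
      (cw u : ℝ) ≤ K * 2 ^ u.sum ∧ 2 ^ u.sum ≤ Y * 3 ^ u.length ∧ (q : ℤ) ∣ en u b - r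

/-- [Q6] odd moduli.
PROOF.  `q = 1`: `PD.back_density`.  `q ≥ 3`: as `PD.count_int` and `PD.back_density` (file `PDFinal.lean`): `b` from `PD.exists_child M c`, `n = en u b`, `D = K (B + 1)`, `Y = ⌊x / D⌋`; `x ≥ q ^ C`, `C` large,
gives `Y ≥ q ^ (C of Q5)` and `Y ≥ Y₀`. -/
def St_Q6 : Prop :=
  ∃ (c : ℝ) (C : ℕ), 0 < c ∧ ∀ (a : ℤ), ¬ (3 : ℤ) ∣ a → ∀ (q : ℕ) (r : ℤ) (x : ℝ), Odd q →
    (q : ℝ) ^ C ≤ x → c * x / q ≤ (Set.ncard {n : ℤ | n ∈ Back a (x * |(a : ℝ)|) ∧ (q : ℤ) ∣ n - r} : ℝ)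

/-- [Q7] all moduli.
PROOF.  `q = 2 ^ i q₁`, `q₁` odd, `i ≥ 1`.  `r = r₀` modulo `2 ^ i`, `0 ≤ r₀ < 2 ^ i`, `T^[i] (r₀ + 2 ^ i l) = 3 ^ α l + t` for all `l` (`α ≤ i`, `0 ≤ t < 3 ^ α`; `SLD.TWO_A` in `SLD/TWO.lean` is similar).
`r₀ + 2 ^ i l = r` modulo `q₁` iff `l = l'` modulo `q₁`.  For `n' ∈ Back a (x' |a|)`, `x' = 3 ^ α x / 2 ^ (i + 1)`, `n' = 3 ^ α l' + t` modulo `3 ^ α q₁` (Q6; `x' ≥ q ^ (C - 2) ≥ (3 ^ α q₁) ^ C₆`):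
`l = (n' - t) / 3 ^ α`, `n = r₀ + 2 ^ i l`, `T^[i] n = n'`; same sign (`T` preserves positive and negative integers and 0); `|n| ≤ 2 ^ i |n'| / 3 ^ α + 2 * 2 ^ i ≤ x |a|`; injective. -/
def St_Q7 : Prop :=
  ∃ (c : ℝ) (C : ℕ), 0 < c ∧ ∀ (a : ℤ), ¬ (3 : ℤ) ∣ a → ∀ (q : ℕ) (r : ℤ) (x : ℝ), 1 ≤ q →
    (q : ℝ) ^ C ≤ x → c * x / q ≤ (Set.ncard {n : ℤ | n ∈ Back a (x * |(a : ℝ)|) ∧ (q : ℤ) ∣ n - r} : ℝ)

/-- [Q8] all starting points.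
PROOF.  As `PD.grand_density` (file `PDGrand.lean`; this is the case `q = 1`); for `q ≥ 2` Q7 with `x / 2 ≥ q ^ (C - 1)`, `PD.exists_prime_to_three`. -/
def St_Q8 : Prop :=
  ∃ (c : ℝ) (C : ℕ), 0 < c ∧ ∀ (m : ℤ), m ≠ 0 → ∀ (q : ℕ) (r : ℤ) (x : ℝ), 1 ≤ q →
    (q : ℝ) ^ C ≤ x → c * x / q ≤ (Set.ncard {n : ℤ | 0 < n * m ∧ |(n : ℝ)| ≤ x * |(m : ℝ)| ∧
      (q : ℤ) ∣ n - r ∧ ∃ j k : ℕ, T^[j] n = T^[k] m ∧ (¬ (3 : ℤ) ∣ m → k = 0)} : ℝ)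

end Pool.Agent.PDQ
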